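import Pool.Graph.R_seed8.R611.HM.T10

/-!
# Level 0: moves and exchange
-/

set_option autoImplicit false
set_option linter.unusedSectionVars false

namespace Pool.Agent.H55.HM

open Pool.Agent.R611.HM
open FirstOrder Language Structure Set

universe u w

variable {L : FirstOrder.Language.{u, u}} {K : Type u} [L.Structure K] [Field K]
variable {Γ : Type w} [LinearOrderedCommGroupWithZero Γ] {v : Valuation K Γ}

theorem M0 (h0 : TH L v 0) {ι : Type} [Finite ι] (a : ι → K) {Z : Set K} (hZ : Z.Finite)
    {y y' : K} (h : nr1 L v a y y') : ∃ S, Mv L v a Z S ∧ (y, y') ∈ S := by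
  obtain ⟨S, hS, hy, _⟩ := h0 ι a Z hZ (fun _ => 0) 1 y y' one_ne_zero (by simp)
    (fun c hc => by rw [map_one, one_mul]; exact h c hc)
  exact ⟨S, hS, hy⟩

variable (hK : Satur L K) (hV : VF L v) (h0 : TH L v 0) (hnt : ∃ t : K, t ≠ 0 ∧ v t < 1)
variable {ι : Type} [Finite ι] (a : ι → K)

theorem rveq_lt {x y : K} (h : RVeq v x y) (hx : x ≠ 0) : v (y - x) < v x := by
  rcases h with ⟨h1, _⟩ | h
  · exact absurd h1 hx
  · rwa [v_sub_comm]

include hK hV h0 hnt in
/-- exchange from level 0, when the distance to the algebraic closure is attained -/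
theorem exch0_att {x d c : K} (hd : d ∈ acl L (oc x a)) (hda : d ∉ acl L a)
    (hc : c ∈ acl L (oc d a)) (hmin : ∀ c' ∈ acl L (oc d a), v (x - c) ≤ v (x - c'))
    (hxc : x - c ≠ 0) : False := by
  obtain ⟨P, hP, hPf, hPd⟩ := acl_orbit hd
  have hpos : 0 < v (x - c) := (Valuation.pos_iff v).2 hxc
  have hconst : ∀ (S : Set (K × K)) (Z : Set K) (x' d' : K), Mv L v a Z S →
      dif {e | P (oc x a) e} ⊆ Z → (x, x') ∈ S → (d, d') ∈ S → v (x' - x) < v (x - c) →
      d' = d := by
    intro S Z x' d' hS hZ h2 h3 h4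
    have h5 : nr1 L v (oc d a) x x' := fun c' hc' => h4.trans_le (hmin c' hc')
    obtain ⟨T, hT, h6⟩ := M0 h0 (oc d a) (dif_finite hPf) h5
    exact unique_img a hV hP hPf hPd hS hT.base hZ le_rfl h2 h6 h3 hT.fixx
  have hA : ∀ c1, c1 ∈ acl L (oc d a) → v (x - c1) ≤ v (x - c) → d ∈ acl L (oc c1 a) := by
    intro c1 hc1 hle
    by_contra hcon
    obtain ⟨d0, hne, hd0⟩ := exists_small1 hK hV (oc c1 a) hnt hcon
    obtain ⟨S, hS, h2⟩ := M0 h0 (oc c1 a)
      (Z := dif {e | P (oc x a) e} ∪ {x, x - c1})
      ((dif_finite hPf).union (Set.toFinite _)) hd0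
    obtain ⟨x1, hx1, _⟩ := hS.rig x (Or.inr (Or.inl rfl))
    have h3 := hS.rv_sub hV hx1 hS.fixx (Or.inr (Or.inr rfl))
    have hxc1 : x - c1 ≠ 0 := by
      intro h4
      have := hmin c1 hc1
      rw [h4, map_zero] at this
      exact absurd hpos (not_lt.2 this)
    have h4 := rveq_lt h3 hxc1
    have e : x1 - c1 - (x - c1) = x1 - x := by ring
    rw [e] at h4
    exact hne (hconst S _ x1 d0 hS.base Set.subset_union_left hx1 h2 (h4.trans_le hle))
  have hB : ∀ c1 ∈ acl L a, v (x - c) < v (x - c1) := by
    intro c1 hc1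
    by_contra hcon
    rw [not_lt] at hcon
    exact hda (acl_oc_le (mem_acl_self a) hc1 (hA c1 (acl_le_oc a d hc1) hcon))
  obtain ⟨Q, hQ, hQf, hQc⟩ := acl_orbit hc
  have hC : ∀ c', v (c' - c) < v (x - c) → Q (oc d a) c' := by
    intro c' hc'
    have hn : nr1 L v a c c' := by
      intro c1 hc1
      have h2 := hB c1 hc1
      rw [v_dist_eq h2]
      exact hc'.trans h2
    obtain ⟨S, hS, h2⟩ := M0 h0 a
      (Z := dif {e | P (oc x a) e} ∪ {x, x - c, d})
      ((dif_finite hPf).union (Set.toFinite _)) hn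
    obtain ⟨x2, hx2, _⟩ := hS.rig x (Or.inr (Or.inl rfl))
    obtain ⟨d', hd', _⟩ := hS.rig d (Or.inr (Or.inr (Or.inr rfl)))
    have h3 := hS.rv_sub hV hx2 h2 (Or.inr (Or.inr (Or.inl rfl)))
    have h4 := rveq_lt h3 hxc
    have h5 : v (x2 - x) < v (x - c) := by
      have e : x2 - x = (x2 - c' - (x - c)) + (c' - c) := by ring
      rw [e]
      exact v_add_lt h4 hc'
    have h6 := hconst S _ x2 d' hS Set.subset_union_left hx2 hd' h5
    rw [h6] at hd'
    have key := hS.el (Option (Option ι)) (fun o => o.elim (c, c')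
      (fun o' => o'.elim (d, d) (fun i => (a i, a i))))
      (by rintro (_ | _ | i); exacts [h2, hd', hS.fix i]) _ hQ
    have e1 : (fun i : Option ι => ((fun o : Option (Option ι) => (o.elim (c, c')
      (fun o' => o'.elim (d, d) (fun i => (a i, a i))) : K × K)) (some i)).1) = oc d a := by
      funext i; rcases i with _ | i <;> rfl
    have e2 : (fun i : Option ι => ((fun o : Option (Option ι) => (o.elim (c, c')
      (fun o' => o'.elim (d, d) (fun i => (a i, a i))) : K × K)) (some i)).2) = oc d a := by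
      funext i; rcases i with _ | i <;> rfl
    rw [e1, e2] at key
    exact key.1 hQc
  obtain ⟨t, ht0, ht1⟩ := hnt
  have hinf : Set.Infinite {e | Q (oc d a) e} := by
    refine Set.infinite_of_injective_forall_mem (f := fun n : ℕ => c + n * (t * (x - c))) ?_ ?_
    · intro n m hnm
      simp only [add_right_inj] at hnm
      have h2 : ((n : K) - m) * (t * (x - c)) = 0 := by
        rw [sub_mul, hnm, sub_self]
      rcases mul_eq_zero.1 h2 with h3 | h3
      · by_contra hne
        rcases lt_or_gt_of_ne hne with h4 | h4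
        · have h5 : ((m - n : ℕ) : K) = 0 := by
            rw [Nat.cast_sub h4.le, ← neg_eq_zero, neg_sub]
            exact h3
          have h6 := hV.nat (m - n) (by omega)
          rw [h5, map_zero] at h6
          exact zero_ne_one h6
        · have h5 : ((n - m : ℕ) : K) = 0 := by
            rw [Nat.cast_sub h4.le]
            exact h3
          have h6 := hV.nat (n - m) (by omega)
          rw [h5, map_zero] at h6
          exact zero_ne_one h6
      · exact absurd h3 (mul_ne_zero ht0 hxc)
    · intro n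
      refine hC _ ?_
      have e : c + n * (t * (x - c)) - c = n * (t * (x - c)) := by ring
      rw [e, map_mul, map_mul]
      have h2 : v (n : K) ≤ 1 := by
        rcases Nat.eq_zero_or_pos n with h | h
        · rw [h]; simp
        · rw [hV.nat n h.ne']
      calc v (n : K) * (v t * v (x - c)) ≤ 1 * (v t * v (x - c)) := mul_le_mul_left h2 _
        _ = v t * v (x - c) := one_mul _
        _ < 1 * v (x - c) := mul_lt_mul_of_pos_right ht1 hpos
        _ = v (x - c) := one_mul _
  exact hinf hQf

include hK hV h0 hnt in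
/-- exchange for the algebraic closure, from level 0 -/
theorem exch0 {x d : K} (hd : d ∈ acl L (oc x a)) (hda : d ∉ acl L a) :
    x ∈ acl L (oc d a) := by
  by_contra hcon
  obtain ⟨P, hP, hPf, hPd⟩ := acl_orbit hd
  obtain ⟨k, hk⟩ := atMost_of_finite hPf
  let Q : K → (Option ι → K) → Prop := fun u' p =>
    P (oc u' (fun i => p (some i))) (p none) ∧
      ¬ ∃ t : Fin (k + 1) → K, Function.Injective t ∧ ∀ i, P (oc u' (fun i => p (some i))) (t i)
  have hQ : Df L (fun w : Option (Option ι) → K => Q (w none) (fun i => w (some i))) := by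
    refine Df.and ?_ ?_
    · exact Df.ocr hP none (some none) (fun i => some (some i))
    · have h2 := df_atMost k hP
      refine (h2.relabel (β := Option (Option ι)) (fun o : Option ι =>
        (o.elim none (fun i => some (some i)) : Option (Option ι)))).congr fun w => ?_
      have e : (fun i : Option ι => w ((fun o : Option ι =>
          (o.elim none (fun i => some (some i)) : Option (Option ι))) i)) =
          oc (w none) (fun i => w (some (some i))) := by
        funext i
        rcases i with _ | i <;> rfl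
      rw [e]
  have hQx : Q x (oc d a) := ⟨hPd, hk⟩
  have hQu : ∀ u', nr1 L v (oc d a) x u' → Q u' (oc d a) := by
    intro u' hu'
    obtain ⟨R, hR, hxu⟩ := M0 h0 (oc d a) (Z := ∅) Set.finite_empty hu'
    have key := hR.el (Option (Option ι)) (fun o => o.elim (x, u')
      (fun o' => (oc d a o', oc d a o')))
      (by rintro (_ | i); exacts [hxu, hR.fix i]) _ hQ
    exact key.1 hQx
  obtain ⟨u', a1, ha1, hQu', h3, h4⟩ := attain hK hV (oc d a) Q hQ (oc d a) (u := x) (g := 0)
    (fun c hc => by
      rw [map_zero]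
      exact (Valuation.pos_iff v).2 (sub_ne_zero.2 fun e => hcon (e ▸ hc))) hQu
  rw [map_zero] at h3
  exact exch0_att hK hV h0 hnt a (x := u') (d := d) (c := a1)
    ⟨P, ⟨hP, finite_of_atMost (X := {e | P (oc u' a) e}) hQu'.2⟩, hQu'.1⟩ hda ha1 h4
    ((Valuation.pos_iff v).1 h3)

end Pool.Agent.H55.HM
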