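import Pool.Agent.H55.HM.A

/-!
# Level 0: slopes of definable functions on balls
-/

set_option autoImplicit false
set_option linter.unusedSectionVars false

namespace Pool.Agent.H55.HM

open Pool.Agent.R611.HM
open FirstOrder Language Structure Set

universe u w

variable {L : FirstOrder.Language.{u, u}} {K : Type u} [L.Structure K] [Field K]
variable {Γ : Type w} [LinearOrderedCommGroupWithZero Γ] {v : Valuation K Γ}

/-- `f` is a definable function which, on the ball 1-next to `x` over `a`, commutes with all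
sufficiently rigid moves over `a` -/
structure Fun (L : FirstOrder.Language.{u, u}) {K : Type u} [L.Structure K] [Field K]
    {Γ : Type w} [LinearOrderedCommGroupWithZero Γ] (v : Valuation K Γ)
    {ι : Type} (a : ι → K) (x : K) (f : K → K) : Prop where
  dfn : ∃ (β : Type) (_ : Finite β) (p : β → K) (F : (Option β → K) → K), DfF L F ∧
    ∀ x, f x = F (oc x p)
  com : ∃ Z : Set K, Z.Finite ∧ ∀ S x' x'' y, Mv L v a Z S → nr1 L v a x x' → nr1 L v a x x'' →
    (x', x'') ∈ S → (f x', y) ∈ S → y = f x''

/-- `u` is smaller than the distances from `x` to the algebraic closure of `a` -/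
def sm (L : FirstOrder.Language.{u, u}) {K : Type u} [L.Structure K] [Field K]
    {Γ : Type w} [LinearOrderedCommGroupWithZero Γ] (v : Valuation K Γ)
    {ι : Type} (a : ι → K) (x u : K) : Prop := ∀ c ∈ acl L a, v u < v (x - c)

theorem sm_iff {ι : Type} {a : ι → K} {x u : K} : sm L v a x u ↔ nr1 L v a x (x + u) := by
  unfold sm nr1
  simp

theorem sm.of_le {ι : Type} {a : ι → K} {x u u' : K} (h : sm L v a x u) (hu : v u' ≤ v u) :
    sm L v a x u' := fun c hc => hu.trans_lt (h c hc)

theorem sm.tr {ι : Type} {a : ι → K} {x x' u : K} (h : sm L v a x u) (hx : nr1 L v a x x') :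
    sm L v a x' u := fun c hc => by
  rw [hx.dist hc]
  exact h c hc

theorem sm.nr {ι : Type} {a : ι → K} {x x' u : K} (h : sm L v a x u) (hx : nr1 L v a x x') :
    nr1 L v a x (x' + u) := hx.trans (sm_iff.1 (h.tr hx))

theorem sm.notMem {ι : Type} {a : ι → K} {x u : K} (h : sm L v a x u) : x ∉ acl L a :=
  fun hx => by
    have := h x hx
    rw [sub_self, map_zero] at this
    exact absurd this not_lt_zero

theorem sm.self {ι : Type} {a : ι → K} {x u : K} (h : sm L v a x u) : nr1 L v a x x :=
  nr1.refl h.notMem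

theorem el_add (hV : VF L v) {S : Set (K × K)} (h : El L S) {x x' y y' z' : K} (hx : (x, x') ∈ S)
    (hy : (y, y') ∈ S) (hz : (x + y, z') ∈ S) : z' = x' + y' := by
  have h1 := h.fn (fun b : Bool => if b then (x, x') else (y, y'))
    (by rintro (_ | _) <;> simpa) (hV.fadd (DfF.var true) (DfF.var false))
  have h2 : (x + y, x' + y') ∈ insert ((fun w : Bool → K => w true + w false)
      (fun i => ((if i then (x, x') else (y, y') : K × K)).1),
      (fun w : Bool → K => w true + w false)
      (fun i => ((if i then (x, x') else (y, y') : K × K)).2)) S := by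
    left
    simp
  exact h1.functional (Set.mem_insert_of_mem _ hz) h2

theorem el_mul (hV : VF L v) {S : Set (K × K)} (h : El L S) {x x' y y' z' : K} (hx : (x, x') ∈ S)
    (hy : (y, y') ∈ S) (hz : (x * y, z') ∈ S) : z' = x' * y' := by
  have h1 := h.fn (fun b : Bool => if b then (x, x') else (y, y'))
    (by rintro (_ | _) <;> simpa) (hV.fmul (DfF.var true) (DfF.var false))
  have h2 : (x * y, x' * y') ∈ insert ((fun w : Bool → K => w true * w false)
      (fun i => ((if i then (x, x') else (y, y') : K × K)).1),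
      (fun w : Bool → K => w true * w false)
      (fun i => ((if i then (x, x') else (y, y') : K × K)).2)) S := by
    left
    simp
  exact h1.functional (Set.mem_insert_of_mem _ hz) h2

theorem DfF.ocg {β γ : Type} [Finite β] [Finite γ] {F : (Option β → K) → K} (hF : DfF L F)
    {g : (γ → K) → K} (hg : DfF L g) (B : β → γ) :
    DfF L (fun w : γ → K => F (oc (g w) (fun i => w (B i)))) :=
  hF.comp (f := fun o w => o.elim (g w) (fun i => w (B i)))
    (by rintro (_ | i); exacts [hg, DfF.var _])

variable (hK : Satur L K) (hV : VF L v) (h0 : TH L v 0) (hnt : ∃ t : K, t ≠ 0 ∧ v t < 1)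
variable {ι : Type} [Finite ι] {a : ι → K}

namespace Fun

variable {x : K} {f : K → K}

/-- enlarging the base -/
theorem up (hf : Fun L v a x f) (d : K) {x1 : K} (h1 : nr1 L v a x x1) :
    Fun L v (oc d a) x1 f where
  dfn := hf.dfn
  com := by
    obtain ⟨Z, hZ, h⟩ := hf.com
    exact ⟨Z, hZ, fun S x' x'' y hS h2 h3 => h S x' x'' y hS.base
      (h1.trans (h2.mono_acl (acl_le_oc a d))) (h1.trans (h3.mono_acl (acl_le_oc a d)))⟩

include hK hV in
/-- subtracting a linear function -/
theorem lin {d : K} (hf : Fun L v (oc d a) x f) :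
    Fun L v (oc d a) x (fun z => f z - d * z) where
  dfn := by
    obtain ⟨β, hβ, p, F, hF, h⟩ := hf.dfn
    refine ⟨Option β, inferInstance, oc d p,
      fun w => F (oc (w none) (fun i => w (some (some i)))) - w (some none) * w none, ?_,
      fun x => ?_⟩
    · exact hV.fsub (DfF.ocg hF (DfF.var none) (fun i => some (some i)))
        (hV.fmul (DfF.var _) (DfF.var _))
    · rw [h]
      rfl
  com := by
    obtain ⟨Z, hZ, h⟩ := hf.com
    refine ⟨Z, hZ, fun S x' x'' y hS h2 h3 h4 h5 => ?_⟩
    obtain ⟨z, hz⟩ := hS.ext hK (f x')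
    obtain ⟨t, ht⟩ := hz.ext hK (d * x')
    have e1 : z = f x'' := h _ x' x'' z hz h2 h3 (Or.inr h4) (Or.inl rfl)
    have e2 : t = d * x'' := el_mul hV ht.el ht.fixx (Or.inr (Or.inr h4)) (Or.inl rfl)
    have e3 := Mv.el_sub hV ht.el (x := f x') (x' := z) (y := d * x') (y' := t) (z' := y)
      (Or.inr (Or.inl rfl)) (Or.inl rfl) (Or.inr (Or.inr h5))
    rw [e3, e1, e2]

include hK hV h0 in
/-- homogeneity -/
theorem hom (hf : Fun L v a x f) {x' x'' u : K} (h1 : nr1 L v a x x') (h2 : nr1 L v a x x'')
    (hu : sm L v a x u) :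
    ∃ u', RVeq v u u' ∧ RVeq v (f (x' + u) - f x') (f (x'' + u') - f x'') := by
  obtain ⟨Z, hZ, hc⟩ := hf.com
  obtain ⟨S, hS, h3⟩ := M0 h0 a (Z := Z ∪ {u, x' + u, f x', f (x' + u), f (x' + u) - f x'})
    (hZ.union (Set.toFinite _)) (h1.symm.trans h2)
  obtain ⟨u', hu', hr⟩ := hS.rig u (Or.inr (by simp))
  obtain ⟨w, hw, _⟩ := hS.rig (x' + u) (Or.inr (by simp))
  obtain ⟨y1, hy1, _⟩ := hS.rig (f x') (Or.inr (by simp))
  obtain ⟨y2, hy2, _⟩ := hS.rig (f (x' + u)) (Or.inr (by simp))
  obtain ⟨s, hs, hs'⟩ := hS.rig (f (x' + u) - f x') (Or.inr (by simp))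
  have e1 : w = x'' + u' := el_add hV hS.el h3 hu' hw
  have hS' := hS.monoZ (Z' := Z) Set.subset_union_left
  have e2 : y1 = f x'' := hc S x' x'' y1 hS' h1 h2 h3 hy1
  have hu'' : sm L v a x u' := hu.of_le hr.v_eq.le
  have e3 : y2 = f w := by
    refine hc S (x' + u) w y2 hS' (hu.nr h1) ?_ hw hy2
    rw [e1]
    exact hu''.nr h2
  have e4 := Mv.el_sub hV hS.el hy2 hy1 hs
  refine ⟨u', hr, ?_⟩
  rw [e4, e3, e2, e1] at hs'
  exact hs'

end Fun

/-! ### arithmetic with leading terms -/

theorem rv_mul_left {x y : K} (h : RVeq v x y) (c : K) : RVeq v (c * x) (c * y) := by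
  by_cases hc : c = 0
  · rw [hc, zero_mul, zero_mul]; exact RVeq.refl _
  rcases h with ⟨h1, h2⟩ | h
  · rw [h1, h2]; exact RVeq.refl _
  · right
    rw [← mul_sub, map_mul, map_mul]
    exact mul_lt_mul_of_pos_left h ((Valuation.pos_iff v).2 hc)

theorem rv_mul_right {x y : K} (h : RVeq v x y) (c : K) : RVeq v (x * c) (y * c) := by
  rw [mul_comm x, mul_comm y]
  exact rv_mul_left h c

theorem rv_mul {x y x' y' : K} (h : RVeq v x y) (h' : RVeq v x' y') :
    RVeq v (x * x') (y * y') := (rv_mul_right h x').trans (rv_mul_left h' y)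

theorem rv_cancel {x y c : K} (hc : c ≠ 0) (h : RVeq v (c * x) (c * y)) : RVeq v x y := by
  have := rv_mul_left h c⁻¹
  rwa [inv_mul_cancel_left₀ hc, inv_mul_cancel_left₀ hc] at this

theorem rv_cancel_right {x y c : K} (hc : c ≠ 0) (h : RVeq v (x * c) (y * c)) : RVeq v x y := by
  rw [mul_comm x, mul_comm y] at h
  exact rv_cancel hc h

theorem rv_zero_iff {x y : K} (h : RVeq v x y) : x = 0 ↔ y = 0 := by
  have := h.v_eq
  rw [← Valuation.zero_iff v (x := x), ← Valuation.zero_iff v (x := y), this]

theorem rveq_of_lt {x y : K} (h : v (y - x) < v x) : RVeq v x y := Or.inr (by rwa [v_sub_comm])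

theorem rveq_of_lt' {x y : K} (h : v (x - y) < v x) : RVeq v x y := Or.inr h

namespace Fun

variable {x : K} {f : K → K}

include hK hV h0 in
theorem seqn (hf : Fun L v a x f) {u0 : K} (hu0 : u0 ≠ 0) (hu : sm L v a x u0) (n : ℕ) :
    ∃ xn, nr1 L v a x xn ∧ v (xn - x - n * u0) < v u0 ∧
      ((f (x + u0) - f x = 0 ∧ f xn = f x) ∨
        v (f xn - f x - n * (f (x + u0) - f x)) < v (f (x + u0) - f x)) := by
  induction n with
  | zero =>
    refine ⟨x, hu.self, ?_, ?_⟩
    · simp only [sub_self, Nat.cast_zero, zero_mul, map_zero]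
      exact (Valuation.pos_iff v).2 hu0
    · by_cases h : f (x + u0) - f x = 0
      · exact Or.inl ⟨h, rfl⟩
      · right
        simp only [sub_self, Nat.cast_zero, zero_mul, map_zero]
        exact (Valuation.pos_iff v).2 h
  | succ n ih =>
    obtain ⟨xn, h1, h2, h3⟩ := ih
    obtain ⟨u', h4, h5⟩ := hf.hom hK hV h0 hu.self h1 hu
    refine ⟨xn + u', (hu.of_le h4.v_eq.le).nr h1, ?_, ?_⟩
    · have e : xn + u' - x - ((n + 1 : ℕ) : K) * u0 = (xn - x - n * u0) + (u' - u0) := by
        push_cast; ring
      rw [e]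
      exact v_add_lt h2 (rveq_lt h4 hu0)
    · rcases h3 with ⟨h6, h7⟩ | h3
      · left
        refine ⟨h6, ?_⟩
        have h8 := (rv_zero_iff h5).1 h6
        rw [← h7]
        exact sub_eq_zero.1 h8
      · right
        have hs0 : f (x + u0) - f x ≠ 0 := by
          intro h
          rw [h, map_zero] at h3
          exact absurd h3 not_lt_zero
        have e : f (xn + u') - f x - ((n + 1 : ℕ) : K) * (f (x + u0) - f x) =
            (f xn - f x - n * (f (x + u0) - f x)) +
              ((f (xn + u') - f xn) - (f (x + u0) - f x)) := by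
          push_cast; ring
        rw [e]
        exact v_add_lt h3 (rveq_lt h5 hs0)

include hK hV h0 hnt in
/-- the slope at a distance persists at slightly smaller distances -/
theorem left (hf : Fun L v a x f) {u0 : K} (hu0 : u0 ≠ 0) (hu : sm L v a x u0) :
    ∃ g, g ≠ 0 ∧ v g < v u0 ∧ ∀ z u, nr1 L v a x z → v g ≤ v u → v u < v u0 →
      RVeq v ((f (x + u0) - f x) * u) ((f (z + u) - f z) * u0) := by
  classical
  set s0 := f (x + u0) - f x with hs0
  set d := s0 / u0 with hd
  have hdu : d * u0 = s0 := div_mul_cancel₀ _ hu0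
  have hvu0 : 0 < v u0 := (Valuation.pos_iff v).2 hu0
  obtain ⟨β, hβ, p, F, hF, hFf⟩ := hf.dfn
  -- the base
  set b : Option (Option (Option ι)) → K := oc (f x) (oc d (oc x a)) with hb
  have hxb : x ∈ acl L b := mem_acl_self b (some (some none))
  -- a point far from the algebraic closure of the base
  obtain ⟨u', ⟨hQ1, hQ2⟩, hR⟩ := sat_acl' (L := L) hK (α := Unit) (β := β ⊕ Fin 4)
    (Sum.elim p ![x, u0, d, f x]) b
    (fun u' q => v (u' () - q (Sum.inr 0)) ≤ v (q (Sum.inr 1)) ∧
      RVeq v (q (Sum.inr 2) * (u' () - q (Sum.inr 0)))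
        (F (oc (u' ()) (fun i => q (Sum.inl i))) - q (Sum.inr 3)))
    (Df.and (hV.vle (hV.fsub (dvar _) (dvar _)) (dvar _))
      (hV.rveq (hV.fmul (dvar _) (hV.fsub (dvar _) (dvar _)))
        (hV.fsub (DfF.ocg hF (g := fun w : Unit ⊕ (β ⊕ Fin 4) → K => w (Sum.inl ()))
          (dvar _) (fun i => Sum.inr (Sum.inl i))) (dvar _))))
    (fun c u' q => v (q (Sum.inr 1)) ≤ v (u' () - c))
    (hV.vle (dvar _) (hV.fsub (dvar _) (dvar _)))
    (by
      intro C hC _
      choose xs hx1 hx2 hx3 using fun n : ℕ => hf.seqn hK hV h0 hu0 hu n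
      have hdist : ∀ n m : ℕ, n ≠ m → v (xs n - xs m) = v u0 := by
        have key : ∀ n m : ℕ, n < m → v (xs m - xs n) = v u0 := by
          intro n m h
          have e : xs m - xs n = ((m - n : ℕ) : K) * u0 +
              ((xs m - x - m * u0) - (xs n - x - n * u0)) := by
            rw [Nat.cast_sub h.le]; ring
          have h2 : v (((m - n : ℕ) : K) * u0) = v u0 := by
            rw [map_mul, hV.nat (m - n) (by omega), one_mul]
          have h3 : v ((xs m - x - m * u0) - (xs n - x - n * u0)) <
              v (((m - n : ℕ) : K) * u0) := by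
            rw [h2]
            exact v_sub_lt (hx2 m) (hx2 n)
          rw [e, Valuation.map_add_eq_of_lt_left v h3, h2]
        intro n m h
        rcases lt_or_gt_of_ne h with h | h
        · rw [v_sub_comm]; exact key n m h
        · exact key m n h
      obtain ⟨n, hn⟩ : ∃ n : ℕ, ∀ c ∈ C, v u0 ≤ v (xs (n + 1) - c) := by
        by_contra hcon
        push Not at hcon
        choose c hcC hc using hcon
        have : Finite C := hC
        obtain ⟨n, m, hnm, he⟩ := Finite.exists_ne_map_eq_of_infinite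
          (fun n : ℕ => (⟨c n, hcC n⟩ : C))
        have he' : c n = c m := congrArg Subtype.val he
        have h4 := v_sub_lt (hc n) (hc m)
        have e : xs (n + 1) - c n - (xs (m + 1) - c m) = xs (n + 1) - xs (m + 1) := by
          rw [he']; ring
        rw [e, hdist _ _ (by omega)] at h4
        exact lt_irrefl _ h4
      refine ⟨fun _ => xs (n + 1), ⟨?_, ?_⟩, hn⟩
      · simp only [Sum.elim_inr, Matrix.cons_val_zero, Matrix.cons_val_one]
        have e : xs (n + 1) - x = (xs (n + 1) - x - ((n + 1 : ℕ) : K) * u0) +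
            ((n + 1 : ℕ) : K) * u0 := by ring
        rw [e]
        refine v_add_le (hx2 (n + 1)).le ?_
        rw [map_mul, hV.nat (n + 1) (by omega), one_mul]
      · simp only [Sum.elim_inr, Sum.elim_inl, Matrix.cons_val_zero, Matrix.cons_val]
        have e0 : F (oc (xs (n + 1)) (fun i => p i)) = f (xs (n + 1)) := (hFf _).symm
        rw [e0]
        rcases hx3 (n + 1) with ⟨h4, h5⟩ | h4
        · left
          rw [h5, sub_self]
          have : d = 0 := by rw [hd, hs0, h4, zero_div]
          rw [this, zero_mul]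
          exact ⟨rfl, rfl⟩
        · rw [← hs0] at h4
          have hs0' : 0 < v s0 := lt_of_le_of_lt zero_le h4
          have hd0 : d ≠ 0 := by
            intro h
            rw [← hdu, h, zero_mul, map_zero] at hs0'
            exact lt_irrefl _ hs0'
          refine rveq_of_lt ?_
          have h6 : v (xs (n + 1) - x) = v u0 := by
            have e : xs (n + 1) - x = ((n + 1 : ℕ) : K) * u0 +
              (xs (n + 1) - x - ((n + 1 : ℕ) : K) * u0) := by ring
            have h2 : v (((n + 1 : ℕ) : K) * u0) = v u0 := by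
              rw [map_mul, hV.nat (n + 1) (by omega), one_mul]
            have h3 : v (xs (n + 1) - x - ((n + 1 : ℕ) : K) * u0) <
                v (((n + 1 : ℕ) : K) * u0) := by
              rw [h2]; exact hx2 (n + 1)
            rw [e, Valuation.map_add_eq_of_lt_left v h3, h2]
          have e : f (xs (n + 1)) - f x - d * (xs (n + 1) - x) =
              (f (xs (n + 1)) - f x - ((n + 1 : ℕ) : K) * s0) -
                d * (xs (n + 1) - x - ((n + 1 : ℕ) : K) * u0) := by
            rw [← hdu]; ring
          rw [e, map_mul v d, h6, ← map_mul, hdu]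
          refine v_sub_lt h4 ?_
          rw [map_mul, ← hdu, map_mul]
          exact mul_lt_mul_of_pos_left (hx2 (n + 1)) ((Valuation.pos_iff v).2 hd0))
  set xs := u' () with hxs
  simp only [Sum.elim_inr, Sum.elim_inl, Matrix.cons_val_zero, Matrix.cons_val_one,
    Matrix.cons_val] at hQ1 hQ2 hR
  have e0 : F (oc xs (fun i => p i)) = f xs := (hFf _).symm
  rw [e0] at hQ2
  -- the ball around `xs`
  have hxs1 : nr1 L v a x xs := fun c hc => hQ1.trans_lt (hu c hc)
  have hball : ∀ y, v (y - xs) < v u0 → nr1 L v b xs y := fun y hy c hc =>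
    hy.trans_le (hR c hc)
  set e := f xs - f x - d * (xs - x) with he
  have hh : ∀ u, v u < v u0 → RVeq v e (f (xs + u) - f x - d * (xs + u - x)) := by
    intro u hu1
    have h1 : nr1 L v b xs (xs + u) := hball _ (by
      have : xs + u - xs = u := by ring
      rw [this]; exact hu1)
    obtain ⟨Z, hZ, hc⟩ := hf.com
    obtain ⟨S, hS, h2⟩ := M0 h0 b (Z := Z ∪ {e, f xs, f xs - f x, xs - x, d * (xs - x)})
      (hZ.union (Set.toFinite _)) h1
    obtain ⟨e', he', hr⟩ := hS.rig e (Or.inr (by simp))
    obtain ⟨y1, hy1, _⟩ := hS.rig (f xs) (Or.inr (by simp))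
    obtain ⟨y2, hy2, _⟩ := hS.rig (f xs - f x) (Or.inr (by simp))
    obtain ⟨y3, hy3, _⟩ := hS.rig (xs - x) (Or.inr (by simp))
    obtain ⟨y4, hy4, _⟩ := hS.rig (d * (xs - x)) (Or.inr (by simp))
    have hSa : Mv L v a Z S := (hS.base.base.base).monoZ Set.subset_union_left
    have hfx : (f x, f x) ∈ S := hS.fix none
    have hdd : (d, d) ∈ S := hS.fix (some none)
    have hxx : (x, x) ∈ S := hS.fix (some (some none))
    have e1 : y1 = f (xs + u) := hc S xs (xs + u) y1 hSa hxs1
      (hxs1.trans (h1.mono_acl (acl_trans fun i => mem_acl_self b (some (some (some i))))))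
      h2 hy1
    have e2 := Mv.el_sub hV hS.el hy1 hfx hy2
    have e3 := Mv.el_sub hV hS.el h2 hxx hy3
    have e4 := el_mul hV hS.el hdd hy3 hy4
    have e5 := Mv.el_sub hV hS.el hy2 hy4 he'
    rw [e5, e2, e4, e3, e1] at hr
    exact hr
  have hdiff : ∀ u, v u < v u0 → v (f (xs + u) - f xs - d * u) < v e ∨
      f (xs + u) - f xs - d * u = 0 := by
    intro u hu1
    have h1 := hh u hu1
    have e1 : f (xs + u) - f xs - d * u = (f (xs + u) - f x - d * (xs + u - x)) - e := by
      rw [he]; ring
    rw [e1]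
    rcases h1 with ⟨h2, h3⟩ | h1
    · right
      rw [h2, h3, sub_self]
    · left
      rw [v_sub_comm]
      exact h1
  -- transfer to the other points
  have htr : ∀ g, (∀ u, v g ≤ v u → v u < v u0 → RVeq v (d * u) (f (xs + u) - f xs)) →
      ∀ z u, nr1 L v a x z → v g ≤ v u → v u < v u0 →
      RVeq v (s0 * u) ((f (z + u) - f z) * u0) := by
    intro g hg z u hz h1 h2
    obtain ⟨u'', h3, h4⟩ := hf.hom hK hV h0 hz hxs1 (hu.of_le h2.le)
    have h5 := hg u'' (by rw [h3.v_eq]; exact h1) (by rw [h3.v_eq]; exact h2)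
    have h6 : RVeq v (d * u) (f (z + u) - f z) := ((rv_mul_left h3 d).trans h5).trans h4.symm
    have h7 := rv_mul_right h6 u0
    have e1 : d * u * u0 = s0 * u := by rw [← hdu]; ring
    rwa [e1] at h7
  by_cases he0 : e = 0
  · obtain ⟨t, ht0, ht1⟩ := hnt
    refine ⟨t * u0, mul_ne_zero ht0 hu0, ?_, htr _ fun u _ h2 => ?_⟩
    · rw [map_mul]
      calc v t * v u0 < 1 * v u0 := mul_lt_mul_of_pos_right ht1 hvu0
        _ = v u0 := one_mul _
    · have h3 : f (xs + u) - f xs - d * u = 0 := by
        rcases hdiff u h2 with h3 | h3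
        · rw [he0, map_zero] at h3
          exact absurd h3 not_lt_zero
        · exact h3
      rw [sub_eq_zero.1 h3]
      exact RVeq.refl _
  · have h3 : v e < v s0 := by
      rcases hQ2 with ⟨h4, h5⟩ | h4
      · exact absurd (by rw [he, h5, h4, sub_self]) he0
      · rw [v_sub_comm, ← he] at h4
        refine h4.trans_le ?_
        rw [map_mul, ← hdu, map_mul]
        exact mul_le_mul_right hQ1 _
    have hs00 : s0 ≠ 0 := by
      intro h
      rw [h, map_zero] at h3
      exact absurd h3 not_lt_zero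
    have hd0 : d ≠ 0 := by
      intro h
      rw [h, zero_mul] at hdu
      exact hs00 hdu.symm
    have hde : d * (e / d) = e := mul_div_cancel₀ _ hd0
    refine ⟨e / d, div_ne_zero he0 hd0, ?_, htr _ fun u h1 h2 => ?_⟩
    · rw [← hde, map_mul, ← hdu, map_mul] at h3
      by_contra hc
      rw [not_lt] at hc
      exact absurd h3 (not_lt.2 (mul_le_mul_right hc _))
    · have h4 : v e ≤ v (d * u) := by
        rw [← hde, map_mul, map_mul]
        exact mul_le_mul_right h1 _
      have h5 : d * u ≠ 0 := by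
        intro h
        rw [h, map_zero] at h4
        exact he0 ((Valuation.zero_iff v).1 (le_antisymm h4 zero_le))
      refine rveq_of_lt ?_
      rcases hdiff u h2 with h6 | h6
      · exact h6.trans_le h4
      · rw [h6, map_zero]
        exact (Valuation.pos_iff v).2 h5

end Fun

end Pool.Agent.H55.HM
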