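import Pool.Agent.H55.HM.B

/-!
# Level 0 with a definably complete value group: slopes are constant
-/

set_option autoImplicit false
set_option linter.unusedSectionVars false

namespace Pool.Agent.H55.HM

open Pool.Agent.R611.HM
open FirstOrder Language Structure Set

universe u w

variable {L : FirstOrder.Language.{u, u}} {K : Type u} [L.Structure K] [Field K]
variable {Γ : Type w} [LinearOrderedCommGroupWithZero Γ] {v : Valuation K Γ}

/-- Every definable order isomorphism between closed intervals of the value group which is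
locally a translation (to the left of each point) is a translation.
The isomorphism is given as `v u ↦ v (F (u, p))`. -/
def MM (L : FirstOrder.Language.{u, u}) {K : Type u} [L.Structure K] [Field K]
    {Γ : Type w} [LinearOrderedCommGroupWithZero Γ] (v : Valuation K Γ) : Prop :=
  ∀ (β : Type) [Finite β] (F : (Option β → K) → K) (p : β → K) (u1 u0 : K), DfF L F →
    u1 ≠ 0 → v u1 ≤ v u0 → F (oc u1 p) ≠ 0 →
    (∀ u u', v u = v u' → v u1 ≤ v u → v u ≤ v u0 → v (F (oc u p)) = v (F (oc u' p))) →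
    (∀ u u', v u1 ≤ v u → v u < v u' → v u' ≤ v u0 → v (F (oc u p)) < v (F (oc u' p))) →
    (∀ s, v (F (oc u1 p)) ≤ v s → v s ≤ v (F (oc u0 p)) →
      ∃ u, v u1 ≤ v u ∧ v u ≤ v u0 ∧ v (F (oc u p)) = v s) →
    (∀ u, v u1 < v u → v u ≤ v u0 → ∃ g, v u1 ≤ v g ∧ v g < v u ∧
      ∀ u', v g ≤ v u' → v u' ≤ v u → v (F (oc u' p)) * v u = v (F (oc u p)) * v u') →
    v (F (oc u1 p)) * v u0 = v (F (oc u0 p)) * v u1

variable (hK : Satur L K) (hV : VF L v) (h0 : TH L v 0) (hnt : ∃ t : K, t ≠ 0 ∧ v t < 1)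
variable (hD : MM L v)
variable {ι : Type} [Finite ι] {a : ι → K}

/-- the increment of `f` at `x` -/
def inc (f : K → K) (x u : K) : K := f (x + u) - f x

namespace Fun

variable {x : K} {f : K → K}

include hK hV h0 hnt in
/-- the slope only depends on the distance -/
theorem f1 (hf : Fun L v a x f) {u1 u2 : K} (hu1 : u1 ≠ 0) (h1 : sm L v a x u1)
    (he : v u1 = v u2) : RVeq v (inc f x u1 * u2) (inc f x u2 * u1) := by
  have hu2 : u2 ≠ 0 := by
    rintro rfl
    rw [map_zero] at he
    exact hu1 ((Valuation.zero_iff v).1 he)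
  obtain ⟨g1, hg1, hg1', h3⟩ := hf.left hK hV h0 hnt hu1 h1
  obtain ⟨g2, hg2, hg2', h4⟩ := hf.left hK hV h0 hnt hu2 (h1.of_le he.ge)
  obtain ⟨g, hg, hg', h5, h6⟩ : ∃ g, g ≠ 0 ∧ v g < v u1 ∧ v g1 ≤ v g ∧ v g2 ≤ v g := by
    rcases le_total (v g1) (v g2) with h | h
    · exact ⟨g2, hg2, he ▸ hg2', h, le_rfl⟩
    · exact ⟨g1, hg1, hg1', le_rfl, h⟩
  have h7 := h3 x g h1.self h5 hg'
  have h8 := h4 x g h1.self h6 (he ▸ hg')
  change RVeq v (inc f x u1 * g) (inc f x g * u1) at h7
  change RVeq v (inc f x u2 * g) (inc f x g * u2) at h8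
  have h9 := rv_mul_right h7 u2
  have h10 := rv_mul_right h8 u1
  refine rv_cancel hg ?_
  have e1 : g * (inc f x u1 * u2) = inc f x u1 * g * u2 := by ring
  have e2 : g * (inc f x u2 * u1) = inc f x u2 * g * u1 := by ring
  have e3 : inc f x g * u1 * u2 = inc f x g * u2 * u1 := by ring
  rw [e1, e2]
  rw [e3] at h9
  exact h9.trans h10.symm

include hK hV h0 hnt in
/-- the increments do not depend on the base point -/
theorem f1' (hf : Fun L v a x f) {z u : K} (hz : nr1 L v a x z) (hu : sm L v a x u) :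
    RVeq v (inc f x u) (inc f z u) := by
  by_cases hu0 : u = 0
  · unfold inc
    rw [hu0, add_zero, add_zero, sub_self, sub_self]
    exact RVeq.refl _
  obtain ⟨u', h1, h2⟩ := hf.hom hK hV h0 hz hu.self hu
  have hu'0 : u' ≠ 0 := fun h => hu0 ((rv_zero_iff h1).2 h)
  have h3 := hf.f1 hK hV h0 hnt hu0 hu h1.v_eq.symm
  -- inc x u * u' ~ inc x u' * u ~ inc x u' * u'
  have h4 : RVeq v (inc f x u * u') (inc f x u' * u') := h3.trans (rv_mul_left h1 _)
  exact (rv_cancel_right hu'0 h4).trans h2.symm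

include hK hV h0 hnt in
/-- increments are strictly increasing in the distance -/
theorem f3 (hf : Fun L v a x f) {u1 u2 : K} (h2 : sm L v a x u2)
    (hlt : v u1 < v u2) : v (inc f x u1) < v (inc f x u2) ∨
      (inc f x u1 = 0 ∧ inc f x u2 = 0) := by
  have hu2 : u2 ≠ 0 := by
    rintro rfl
    rw [map_zero] at hlt
    exact not_lt_zero hlt
  have h1 : sm L v a x u1 := h2.of_le hlt.le
  have he : v (u2 - u1) = v u2 := Valuation.map_sub_eq_of_lt_left v hlt
  have hsub : RVeq v u2 (u2 - u1) := by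
    refine rveq_of_lt ?_
    have : u2 - u1 - u2 = -u1 := by ring
    rw [this, Valuation.map_neg]
    exact hlt
  have h3 := hf.f1 hK hV h0 hnt hu2 h2 he.symm
  -- inc u2 * (u2-u1) ~ inc (u2-u1) * u2
  have h4 : RVeq v (inc f x u2) (inc f x (u2 - u1)) :=
    rv_cancel_right hu2 ((rv_mul_left hsub _).trans h3)
  have h5 := hf.f1' hK hV h0 hnt (sm_iff.1 h1) (h2.of_le he.le)
  have h6 := h4.trans h5
  have e : inc f (x + u1) (u2 - u1) = inc f x u2 - inc f x u1 := by
    unfold inc
    have : x + u1 + (u2 - u1) = x + u2 := by ring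
    rw [this]; ring
  rw [e] at h6
  rcases h6 with ⟨h7, h8⟩ | h7
  · right
    rw [h7, zero_sub, neg_eq_zero] at h8
    exact ⟨h8, h7⟩
  · left
    have e2 : inc f x u2 - (inc f x u2 - inc f x u1) = inc f x u1 := by ring
    rwa [e2] at h7

include hK hV h0 in
/-- level 0 moves with control relative to all algebraic points -/
theorem _root_.Pool.Agent.H55.HM.M0inf {Z : Set K} (hZ : Z.Finite) {y y' : K}
    (h : nr1 L v a y y') {x : K} (hx : x ∉ acl L a) :
    ∃ S x', Mv L v a Z S ∧ (y, y') ∈ S ∧ (x, x') ∈ S ∧ nr1 L v a x x' := by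
  classical
  obtain ⟨n, z, hz⟩ := exists_enum hZ
  let S0 : Set (K × K) := insert (y, y') (Set.range fun i => (a i, a i))
  have hS0 : S0.Finite := (Set.finite_range _).insert _
  obtain ⟨u', hel, hQ, hR⟩ := sat_acl (L := L) hK hS0 (oc x z) (oc x z) a
    (fun u' p => ∀ i : Fin n, RVeq v (p (some i)) (u' (some i)))
    (Df.all_fin fun i => hV.rveq (dvar _) (dvar _))
    (fun c u' p => v (u' none - p none) < v (p none - c))
    (hV.vlt (hV.fsub (dvar _) (dvar _)) (hV.fsub (dvar _) (dvar _)))
    (by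
      intro C hC hCa
      obtain ⟨c0, hc0, hmin⟩ : ∃ c ∈ acl L a, ∀ c' ∈ C, v (x - c) ≤ v (x - c') := by
        by_cases hne : C.Nonempty
        · obtain ⟨c, hc, h'⟩ := exists_min_dist (v := v) hC hne x
          exact ⟨c, hCa hc, h'⟩
        · rw [Set.not_nonempty_iff_eq_empty] at hne
          exact ⟨0, zero_mem_acl hV a, fun c' hc' => by
            rw [hne] at hc'; exact absurd hc' (Set.notMem_empty _)⟩
      have hacl : acl L (oc c0 a) ⊆ acl L a := acl_oc_le (mem_acl_self a) hc0
      obtain ⟨S, hS, hy⟩ := M0 h0 (oc c0 a) (Z := Z ∪ {x, x - c0})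
        (hZ.union (Set.toFinite _)) (fun c hc => h c (hacl hc))
      obtain ⟨x', hx', _⟩ := hS.rig x (Or.inr (by simp))
      choose z' hz' hrz using fun i => hS.rig (z i) (Or.inl (hz ▸ ⟨i, rfl⟩))
      have hrv := hS.rv_sub hV hx' hS.fixx (Or.inr (by simp))
      have hxc0 : x - c0 ≠ 0 := sub_ne_zero.2 fun e => hx (e ▸ hc0)
      refine ⟨oc x' z', hS.el.mono ?_, fun i => hrz i, fun c hc => ?_⟩
      · rintro p ((rfl | ⟨i, rfl⟩) | ⟨o, rfl⟩)
        · exact hy
        · exact hS.fix (some i)
        · rcases o with _ | i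
          · exact hx'
          · exact hz' i
      · have h2 := rveq_lt hrv hxc0
        have e : x' - c0 - (x - c0) = x' - x := by ring
        rw [e] at h2
        exact h2.trans_le (hmin c hc))
  refine ⟨_, u' none, ⟨hel, hS0.union (Set.finite_range _), fun i => Or.inl (Or.inr ⟨i, rfl⟩),
    ?_⟩, Or.inl (Or.inl rfl), Or.inr ⟨none, rfl⟩, fun c hc => ?_⟩
  · intro w hw
    rw [← hz] at hw
    obtain ⟨i, rfl⟩ := hw
    exact ⟨u' (some i), Or.inr ⟨some i, rfl⟩, hQ i⟩
  · exact hR c hc

include hK hV h0 hnt in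
/-- all distances between two increments are increments -/
theorem sur (hf : Fun L v a x f) {u1 u0 s : K} (hs : sm L v a x u0) (h10 : v u1 ≤ v u0)
    (hi : inc f x u1 ≠ 0) (h1 : v (inc f x u1) ≤ v s) (h2 : v s ≤ v (inc f x u0)) :
    ∃ u, v u1 ≤ v u ∧ v u ≤ v u0 ∧ v (inc f x u) = v s := by
  obtain ⟨Z, hZ, hc⟩ := hf.com
  have hvi : 0 < v (inc f x u1) := (Valuation.pos_iff v).2 hi
  have hi0 : inc f x u0 ≠ 0 := fun h => by
    rw [h, map_zero] at h2
    exact absurd (hvi.trans_le (h1.trans h2)) (lt_irrefl _)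
  have hfar : ∀ c ∈ acl L a, v (inc f x u0) < v (f x - c) := by
    intro c hca
    obtain ⟨Zc, hZc, hfix⟩ := fix_acl a hV hca
    obtain ⟨S, hS, h3⟩ := M0 h0 a (Z := Z ∪ (Zc ∪ {f x, f x - c, c}))
      (hZ.union (hZc.union (Set.toFinite _))) (sm_iff.1 hs)
    obtain ⟨y1, hy1, _⟩ := hS.rig (f x) (Or.inr (Or.inr (by simp)))
    obtain ⟨c', hc', _⟩ := hS.rig c (Or.inr (Or.inr (by simp)))
    have e1 : c' = c := hfix S c' (hS.monoZ (fun z hz => Or.inr (Or.inl hz))) hc'
    rw [e1] at hc'
    have h4 := hS.rv_sub hV hy1 hc' (Or.inr (Or.inr (by simp)))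
    have e2 : y1 = f (x + u0) := hc S x (x + u0) y1 (hS.monoZ Set.subset_union_left)
      hs.self (sm_iff.1 hs) h3 hy1
    rw [e2] at h4
    have hne : f x - c ≠ 0 := by
      intro h5
      have h6 := (rv_zero_iff h4).1 h5
      refine hi0 ?_
      unfold inc
      rw [sub_eq_zero.1 h5, sub_eq_zero.1 h6, sub_self]
    have h5 := rveq_lt h4 hne
    have e : f (x + u0) - c - (f x - c) = inc f x u0 := by unfold inc; ring
    rwa [e] at h5
  have hn : nr1 L v a (f x) (f x + s) := fun c hca => by
    have e : f x + s - f x = s := by ring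
    rw [e]
    exact h2.trans_lt (hfar c hca)
  obtain ⟨S, x', hS, h3, h4, h5⟩ := M0inf hK hV h0 hZ hn hs.notMem
  have h6 := hc S x x' _ hS hs.self h5 h4 h3
  have hxx : x + (x' - x) = x' := by ring
  have h7 : inc f x (x' - x) = s := by
    unfold inc
    rw [hxx, ← h6]
    ring
  have h8 : sm L v a x (x' - x) := h5
  refine ⟨x' - x, ?_, ?_, by rw [h7]⟩
  · by_contra hcon
    rw [not_le] at hcon
    rcases hf.f3 hK hV h0 hnt (hs.of_le h10) hcon with h9 | ⟨_, h9⟩
    · rw [h7] at h9
      exact absurd h1 (not_le.2 h9)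
    · exact hi h9
  · by_contra hcon
    rw [not_le] at hcon
    rcases hf.f3 hK hV h0 hnt h8 hcon with h9 | ⟨h9, _⟩
    · rw [h7] at h9
      exact absurd h2 (not_le.2 h9)
    · exact hi0 h9

include hK hV h0 hnt hD in
/-- the absolute values of the slopes are nondecreasing in the distance -/
theorem mono (hf : Fun L v a x f) {u1 u0 : K} (hs : sm L v a x u0)
    (hle : v u1 ≤ v u0) : v (inc f x u1) * v u0 ≤ v (inc f x u0) * v u1 := by
  classical
  by_cases hu1 : u1 = 0
  · rw [hu1]
    unfold inc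
    rw [add_zero, sub_self, map_zero, zero_mul, mul_zero]
  by_cases hz : inc f x u1 = 0
  · rw [hz, map_zero, zero_mul]
    exact zero_le
  have hvu1 : 0 < v u1 := (Valuation.pos_iff v).2 hu1
  obtain ⟨β, hβ, p, F, hF, hFf⟩ := hf.dfn
  let G : (Option (Option β) → K) → K := fun w =>
    F (oc (w (some none) + w none) (fun i => w (some (some i)))) -
      F (oc (w (some none)) (fun i => w (some (some i))))
  have hG : DfF L G := hV.fsub
    (DfF.ocg hF (g := fun w : Option (Option β) → K => w (some none) + w none)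
      (hV.fadd (dvar _) (dvar _)) (fun i => some (some i)))
    (DfF.ocg hF (g := fun w : Option (Option β) → K => w (some none)) (dvar _)
      (fun i => some (some i)))
  have hGi : ∀ u, G (oc u (oc x p)) = inc f x u := by
    intro u
    unfold inc
    rw [hFf, hFf]
    rfl
  have key := hD (Option β) G (oc x p) u1 u0 hG hu1 hle
  simp only [hGi] at key
  refine (key hz ?_ ?_ ?_ ?_).le
  · intro u u' h1 h2 h3
    have hu : u ≠ 0 := by
      rintro rfl
      rw [map_zero] at h2
      exact absurd hvu1 (not_lt.2 h2)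
    have h4 := (hf.f1 hK hV h0 hnt hu (hs.of_le h3) h1).v_eq
    rw [map_mul, map_mul, ← h1] at h4
    exact (mul_right_cancel₀ ((Valuation.ne_zero_iff v).2 hu) h4).symm
  · intro u u' h1 h2 h3
    rcases hf.f3 hK hV h0 hnt (hs.of_le h3) h2 with h4 | ⟨h4, h5⟩
    · exact h4
    · exfalso
      rcases h1.lt_or_eq with h6 | h6
      · rcases hf.f3 hK hV h0 hnt (hs.of_le (h2.le.trans h3)) h6 with h7 | ⟨h7, _⟩
        · rw [h4, map_zero] at h7
          exact not_lt_zero h7
        · exact hz h7
      · have h7 := (hf.f1 hK hV h0 hnt hu1 (hs.of_le hle) h6).v_eq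
        rw [map_mul, map_mul, h4, map_zero, zero_mul] at h7
        have hu : u ≠ 0 := by
          rintro rfl
          rw [map_zero] at h6
          exact absurd hvu1 (not_lt.2 h6.le)
        have h8 : v (inc f x u1) * v u ≠ 0 := mul_ne_zero
          ((Valuation.ne_zero_iff v).2 hz) ((Valuation.ne_zero_iff v).2 hu)
        exact h8 h7.symm
  · intro s h1 h2
    exact hf.sur hK hV h0 hnt hs hle hz h1 h2
  · intro u h1 h2
    have hu : u ≠ 0 := by
      rintro rfl
      rw [map_zero] at h1
      exact not_lt_zero h1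
    obtain ⟨g, hg0, hg1, hg2⟩ := hf.left hK hV h0 hnt hu (hs.of_le h2)
    have key2 : ∀ u', v g ≤ v u' → v u' ≤ v u →
        v (inc f x u') * v u = v (inc f x u) * v u' := by
      intro u' h3 h4
      rcases h4.lt_or_eq with h5 | h5
      · have h6 := (hg2 x u' hs.self h3 h5).v_eq
        rw [map_mul, map_mul] at h6
        exact h6
      · have hu' : u' ≠ 0 := by
          rintro rfl
          rw [map_zero] at h5
          exact hu ((Valuation.zero_iff v).1 h5.symm)
        have h6 := (hf.f1 hK hV h0 hnt hu' (hs.of_le (h4.trans h2)) h5).v_eq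
        rw [map_mul, map_mul] at h6
        exact h6.symm
    rcases le_total (v u1) (v g) with h3 | h3
    · exact ⟨g, h3, hg1, key2⟩
    · exact ⟨u1, le_rfl, h1, fun u' h4 h5 => key2 u' (h3.trans h4) h5⟩

include hK hV h0 hnt hD in
/-- the slopes are constant -/
theorem const (hf : Fun L v a x f) {u1 u0 : K} (hu0 : u0 ≠ 0) (hs : sm L v a x u0)
    (hle : v u1 ≤ v u0) : RVeq v (inc f x u1 * u0) (inc f x u0 * u1) := by
  classical
  by_contra hcon
  have hu1 : u1 ≠ 0 := by
    rintro rfl
    refine hcon ?_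
    unfold inc
    rw [add_zero, sub_self, zero_mul, mul_zero]
    exact RVeq.refl _
  have hlt : v u1 < v u0 := by
    rcases hle.lt_or_eq with h | h
    · exact h
    · exact absurd (hf.f1 hK hV h0 hnt hu1 (hs.of_le hle) h) hcon
  obtain ⟨w, hw00, hw0, hw2⟩ := hf.left hK hV h0 hnt hu0 hs
  have hu1w : v u1 < v w := by
    by_contra hc
    rw [not_lt] at hc
    exact hcon (hw2 x u1 hs.self hc hlt).symm
  have hww := hw2 x w hs.self le_rfl hw0
  change RVeq v (inc f x u0 * w) (inc f x w * u0) at hww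
  have hinc0 : inc f x u0 ≠ 0 := by
    intro h
    rcases hf.f3 hK hV h0 hnt hs hlt with h6 | ⟨h6, _⟩
    · rw [h, map_zero] at h6
      exact not_lt_zero h6
    · refine hcon ?_
      rw [h6, h, zero_mul, zero_mul]
      exact RVeq.refl _
  set d := inc f x u0 / u0 with hd
  have hdu : d * u0 = inc f x u0 := div_mul_cancel₀ _ hu0
  have hd0 : d ≠ 0 := div_ne_zero hinc0 hu0
  -- a base point far from the algebraic closure over `d`
  obtain ⟨xs', hxs1, hxs2⟩ := sat_acl' (L := L) hK (α := Unit) (β := Bool)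
    (fun b => if b then x else u0) (oc d a)
    (fun u' q => v (u' () - q true) ≤ v (q false))
    (hV.vle (hV.fsub (dvar _) (dvar _)) (dvar _))
    (fun c u' q => v (q false) ≤ v (u' () - c))
    (hV.vle (dvar _) (hV.fsub (dvar _) (dvar _)))
    (by
      intro C hC _
      simp only [if_true, Bool.false_eq_true, if_false]
      obtain ⟨n, hn⟩ : ∃ n : ℕ, ∀ c ∈ C, v u0 ≤ v (x + n * u0 - c) := by
        by_contra hcon
        push Not at hcon
        choose c hcC hc using hcon
        have : Finite C := hC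
        obtain ⟨n, m, hnm, he⟩ := Finite.exists_ne_map_eq_of_infinite
          (fun n : ℕ => (⟨c n, hcC n⟩ : C))
        have he' : c n = c m := congrArg Subtype.val he
        have key : ∀ n m : ℕ, n < m → c n = c m → False := by
          intro n m hlt he'
          have h4 := v_sub_lt (hc m) (hc n)
          have e : x + m * u0 - c m - (x + n * u0 - c n) =
              ((m - n : ℕ) : K) * u0 := by
            rw [he', Nat.cast_sub hlt.le]; ring
          rw [e, map_mul, hV.nat (m - n) (by omega), one_mul] at h4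
          exact lt_irrefl _ h4
        rcases lt_or_gt_of_ne hnm with h | h
        · exact key n m h he'
        · exact key m n h he'.symm
      refine ⟨fun _ => x + n * u0, ?_, hn⟩
      have e : x + n * u0 - x = n * u0 := by ring
      rw [e, map_mul]
      rcases Nat.eq_zero_or_pos n with h | h
      · rw [h]; simp
      · rw [hV.nat n h.ne', one_mul])
  simp only [if_true, Bool.false_eq_true, if_false] at hxs1 hxs2
  set xs := xs' () with hxs
  have hnr : nr1 L v a x xs := fun c hc => hxs1.trans_lt (hs c hc)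
  have hh : Fun L v (oc d a) xs (fun z => f z - d * z) := (hf.up d hnr).lin hK hV
  have hsm : sm L v (oc d a) xs w := fun c hc => hw0.trans_le (hxs2 c hc)
  have key := hh.mono hK hV h0 hnt hD (u1 := u1) hsm hu1w.le
  have einc : ∀ u, inc (fun z => f z - d * z) xs u = inc f xs u - d * u := by
    intro u
    unfold inc
    ring
  rw [einc, einc] at key
  -- the increment at `w`
  have hw1 : RVeq v (d * w) (inc f xs w) := by
    have h7 := hf.f1' hK hV h0 hnt hnr (hs.of_le hw0.le)
    have e : inc f x u0 * w = d * w * u0 := by rw [← hdu]; ring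
    rw [e] at hww
    exact (rv_cancel_right hu0 hww).trans h7
  have hw2 : v (inc f xs w - d * w) < v (d * w) := rveq_lt hw1 (mul_ne_zero hd0 hw00)
  -- the increment at `u1`
  have hu2 : v (d * u1) ≤ v (inc f xs u1 - d * u1) := by
    by_contra hc
    rw [not_le] at hc
    have h6 := rveq_of_lt hc
    have h7 := hf.f1' hK hV h0 hnt hnr (hs.of_le hle)
    refine hcon ?_
    have h8 := rv_mul_right (h7.trans h6.symm) u0
    have e : d * u1 * u0 = inc f x u0 * u1 := by rw [← hdu]; ring
    rwa [e] at h8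
  have hvu' : 0 < v u1 := (Valuation.pos_iff v).2 hu1
  have h8 : v (d * u1) * v w < v (d * w) * v u1 :=
    ((mul_le_mul_left hu2 _).trans key).trans_lt (mul_lt_mul_of_pos_right hw2 hvu')
  rw [map_mul, map_mul, mul_assoc, mul_assoc, mul_comm (v u1)] at h8
  exact lt_irrefl _ h8

end Fun

end Pool.Agent.H55.HM
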