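import Pool.Agent.H55.HM.C

/-!
# Level 0 with a definably complete value group gives level 1
-/

set_option autoImplicit false
set_option linter.unusedSectionVars false

namespace Pool.Agent.H55.HM

open Pool.Agent.R611.HM
open FirstOrder Language Structure Set

universe u w

variable {L : FirstOrder.Language.{u, u}} {K : Type u} [L.Structure K] [Field K]
variable {Γ : Type w} [LinearOrderedCommGroupWithZero Γ] {v : Valuation K Γ}

open Classical in
/-- the unique solution, or zero -/
noncomputable def pick {γ : Type} (G : K → (γ → K) → Prop) (w : γ → K) : K :=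
  if h : ∃! e, G e w then h.choose else 0

theorem pick_eq {γ : Type} {G : K → (γ → K) → Prop} {w : γ → K} (h : ∃! e, G e w) :
    G (pick G w) w := by
  unfold pick
  rw [dif_pos h]
  exact h.choose_spec.1

theorem DfF.pick (hV : VF L v) {γ : Type} [Finite γ] {G : K → (γ → K) → Prop}
    (hG : Df L (fun w : Option γ → K => G (w none) (fun i => w (some i)))) :
    DfF L (fun w => pick G w) := by
  have hex : Df L (fun w : γ → K => ∃! e, G e w) := by
    have h1 : Df L (fun w : Option γ → K => G (w none) (fun i => w (some i)) ∧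
        ∀ e', G e' (fun i => w (some i)) → e' = w none) := by
      refine Df.and hG (Df.all1 (Q := fun e' (w : Option γ → K) =>
        G e' (fun i => w (some i)) → e' = w none) (Df.imp ?_ (Df.eq (dvar _) (dvar _))))
      exact hG.relabel (β := Option (Option γ)) (fun o : Option γ =>
        (o.elim none (fun i => some (some i)) : Option (Option γ)))
    refine (Df.ex1 (Q := fun e (w : γ → K) => G e w ∧ ∀ e', G e' w → e' = e) h1).congr fun w => ?_
    rfl
  have h2 : Df L (fun w : Option γ → K =>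
      ((∃! e, G e (fun i => w (some i))) ∧ G (w none) (fun i => w (some i))) ∨
        (¬ (∃! e, G e (fun i => w (some i))) ∧ w none = 0)) := by
    have h3 : Df L (fun w : Option γ → K => ∃! e, G e (fun i => w (some i))) :=
      hex.relabel some
    exact (h3.and hG).or (h3.not.and (Df.eq (dvar _) hV.fzero))
  refine h2.congr fun w => ?_
  change _ ↔ w none = HM.pick G (fun i => w (some i))
  by_cases h : ∃! e, G e (fun i => w (some i))
  · have h4 := pick_eq h
    constructor
    · rintro (⟨_, h5⟩ | ⟨h5, _⟩)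
      · obtain ⟨e, he, hu⟩ := h
        rw [hu _ h5, hu _ h4]
      · exact absurd h h5
    · intro h5
      left
      refine ⟨h, ?_⟩
      rw [h5]
      exact h4
  · have h4 : HM.pick G (fun i => w (some i)) = 0 := by
      unfold HM.pick
      rw [dif_neg h]
    constructor
    · rintro (⟨h5, _⟩ | ⟨_, h5⟩)
      · exact absurd h5 h
      · rw [h5, h4]
    · intro h5
      right
      exact ⟨h, by rw [h5, h4]⟩

variable (hK : Satur L K) (hV : VF L v) (h0 : TH L v 0) (hnt : ∃ t : K, t ≠ 0 ∧ v t < 1)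
variable (hD : MM L v)
variable {ι : Type} [Finite ι] (a : ι → K)

/-- the graph of the function transporting an algebraic point -/
def Gr (v : Valuation K Γ) {ι : Type} (P : (Option ι → K) → K → Prop) (k : ℕ) (i0 : Fin k)
    (e : K) (w : Option (Fin k ⊕ ι) → K) : Prop :=
  ∃ t' : Fin k → K, (∀ e', P (oc (w none) (fun i => w (some (Sum.inr i)))) e' ↔ ∃ i, t' i = e') ∧
    (∀ i j, RVeq v (w (some (Sum.inl i)) - w (some (Sum.inl j))) (t' i - t' j)) ∧ t' i0 = e

theorem Gr_df (hV : VF L v) {P : (Option ι → K) → K → Prop}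
    (hP : Df L (fun w : Option (Option ι) → K => P (fun i => w (some i)) (w none)))
    (k : ℕ) (i0 : Fin k) :
    Df L (fun w : Option (Option (Fin k ⊕ ι)) → K =>
      Gr v P k i0 (w none) (fun i => w (some i))) := by
  unfold Gr
  refine Df.exT (γ := Fin k) (Q := fun t' (w : Option (Option (Fin k ⊕ ι)) → K) =>
    (∀ e', P (oc (w (some none)) (fun i => w (some (some (Sum.inr i))))) e' ↔
      ∃ i, t' i = e') ∧
    (∀ i j, RVeq v (w (some (some (Sum.inl i))) - w (some (some (Sum.inl j))))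
      (t' i - t' j)) ∧ t' i0 = w none) ?_
  refine Df.and ?_ (Df.and ?_ (Df.eq (dvar _) (dvar _)))
  · refine Df.all1 (Q := fun e (w : Option (Option (Fin k ⊕ ι)) ⊕ Fin k → K) =>
      P (oc (w (Sum.inl (some none))) (fun i => w (Sum.inl (some (some (Sum.inr i)))))) e ↔
        ∃ i, w (Sum.inr i) = e) ?_
    exact Df.iff (Df.ocr hP (some (Sum.inl (some none))) none
      (fun i => some (Sum.inl (some (some (Sum.inr i))))))
      (Df.ex_fin fun i => Df.eq (dvar _) (dvar _))
  · refine Df.all_fin fun i => Df.all_fin fun j => ?_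
    exact hV.rveq (hV.fsub (dvar _) (dvar _)) (hV.fsub (dvar _) (dvar _))

include hV h0 in
/-- an algebraic point over `x` is the value at `x` of a function commuting with moves -/
theorem exists_fun {x d : K} (hd : d ∈ acl L (oc x a)) :
    ∃ (f : K → K) (Z : Set K), Fun L v a x f ∧ Z.Finite ∧ ∀ S x' d', Mv L v a Z S →
      nr1 L v a x x' → (x, x') ∈ S → (d, d') ∈ S → d' = f x' := by
  classical
  obtain ⟨P, hP, hPf, hPd⟩ := acl_orbit hd
  obtain ⟨k, t, ht⟩ := exists_enum hPf
  obtain ⟨i0, hi0⟩ : ∃ i, t i = d := by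
    have : d ∈ Set.range t := by rw [ht]; exact hPd
    exact this
  have hGd := Gr_df (ι := ι) hV hP k i0
  let q : Fin k ⊕ ι → K := Sum.elim t a
  let F : (Option (Fin k ⊕ ι) → K) → K := fun w => pick (Gr v P k i0) w
  have hF : DfF L F := DfF.pick hV hGd
  let f : K → K := fun z => F (oc z q)
  -- the graph on the ball
  have hmv : ∀ (S : Set (K × K)) (x' d' : K), Mv L v a (dif {e | P (oc x a) e}) S →
      (x, x') ∈ S → (d, d') ∈ S → ∀ e, Gr v P k i0 e (oc x' q) ↔ e = d' := by
    intro S x' d' hS h1 h2 e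
    obtain ⟨t', ht1, ht2, ht3⟩ := enum_img a hV hP hPf ht hS h1
    have ed' : t' i0 = d' := hS.el.functional (ht1 i0) (by rw [hi0]; exact h2)
    constructor
    · rintro ⟨t'', hs1, hs2, hs3⟩
      have h3 : (t i0, t'' i0) ∈ S := by
        refine rig_enum hV (b := oc x a) (b' := oc x' a) hP hPf hS le_rfl ?_ (t := t)
          (t' := t'') (fun e => ?_) hs1 hs2 i0
        · rintro (_ | i)
          · exact h1
          · exact hS.fix i
        · have := Set.ext_iff.1 ht e
          exact this.symm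
      rw [← hs3, ← ed']
      exact hS.el.functional h3 (ht1 i0)
    · rintro rfl
      exact ⟨t', ht2, ht3, ed'⟩
  have hex : ∀ x', nr1 L v a x x' → ∃ S d', Mv L v a (dif {e | P (oc x a) e}) S ∧
      (x, x') ∈ S ∧ (d, d') ∈ S := by
    intro x' h1
    obtain ⟨S, hS, h2⟩ := M0 h0 a (dif_finite hPf) h1
    obtain ⟨d', hd', _⟩ := hS.rig d (mem_dif hPd)
    exact ⟨S, d', hS, h2, hd'⟩
  have hval : ∀ (S : Set (K × K)) (x' d' : K), Mv L v a (dif {e | P (oc x a) e}) S →
      (x, x') ∈ S → (d, d') ∈ S → d' = f x' := by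
    intro S x' d' hS h1 h2
    have h3 := hmv S x' d' hS h1 h2
    have h4 : ∃! e, Gr v P k i0 e (oc x' q) := ⟨d', (h3 d').2 rfl, fun e he => (h3 e).1 he⟩
    exact ((h3 _).1 (pick_eq h4)).symm
  refine ⟨f, dif {e | P (oc x a) e}, ⟨⟨Fin k ⊕ ι, inferInstance, q, F, hF, fun z => rfl⟩,
    dif {e | P (oc x a) e}, dif_finite hPf, ?_⟩, dif_finite hPf,
    fun S x' d' hS _ h1 h2 => hval S x' d' hS h1 h2⟩
  intro S x' x'' y hS h1 h2 h3 h4
  have hmem : ∀ i, P (oc x a) (t i) := fun i => by
    have : t i ∈ {e | P (oc x a) e} := ht ▸ ⟨i, rfl⟩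
    exact this
  choose t' ht1 ht2 using fun i => hS.rig (t i) (mem_dif (hmem i))
  obtain ⟨S', d', hS', h5, h6⟩ := hex x' h1
  have h7 : Gr v P k i0 (f x') (oc x' q) := by
    have := hval S' x' d' hS' h5 h6
    rw [← this]
    exact (hmv S' x' d' hS' h5 h6 d').2 rfl
  have key := hS.el (Option (Option (Fin k ⊕ ι))) (fun o => o.elim (f x', y)
    (fun o' => o'.elim (x', x'') (Sum.elim (fun i => (t i, t' i)) (fun i => (a i, a i)))))
    (by rintro (_ | _ | i | i); exacts [h4, h3, ht1 i, hS.fix i]) _ hGd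
  have e1 : (fun i : Option (Fin k ⊕ ι) => ((fun o : Option (Option (Fin k ⊕ ι)) =>
      (o.elim (f x', y) (fun o' => o'.elim (x', x'') (Sum.elim (fun i => (t i, t' i))
      (fun i => (a i, a i)))) : K × K)) (some i)).1) = oc x' q := by
    funext i; rcases i with _ | i | i <;> rfl
  have e2 : (fun i : Option (Fin k ⊕ ι) => ((fun o : Option (Option (Fin k ⊕ ι)) =>
      (o.elim (f x', y) (fun o' => o'.elim (x', x'') (Sum.elim (fun i => (t i, t' i))
      (fun i => (a i, a i)))) : K × K)) (some i)).2) = oc x'' (Sum.elim t' a) := by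
    funext i; rcases i with _ | i | i <;> rfl
  rw [e1, e2] at key
  obtain ⟨s, hs1, hs2, hs3⟩ := key.1 h7
  have h8 : Gr v P k i0 y (oc x'' q) := by
    refine ⟨s, hs1, fun i j => ?_, hs3⟩
    have h9 := hS.rv_sub hV (ht1 i) (ht1 j) (sub_mem_dif (hmem i) (hmem j))
    exact h9.trans (hs2 i j)
  obtain ⟨S'', d'', hS'', h9, h10⟩ := hex x'' h2
  rw [(hmv S'' x'' d'' hS'' h9 h10 y).1 h8]
  exact hval S'' x'' d'' hS'' h9 h10

include hK hV h0 hnt hD in
/-- control of the images of algebraic points -/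
theorem jac {y x : K} (hx : x ∈ acl L (oc y a)) : ∃ Z : Set K, Z.Finite ∧
    ∀ S y' x' l, l ≠ 0 → v l ≤ 1 → Mv L v a Z S → (y, y') ∈ S → (x, x') ∈ S →
      nr L v l a y y' → RVl v l x x' := by
  obtain ⟨f, Z, hf, hZ, hfZ⟩ := exists_fun hV h0 a hx
  refine ⟨Z, hZ, fun S y' x' l hl hl1 hS h1 h2 h3 => ?_⟩
  have hnr := h3.to1 hl1
  have hy : y ∉ acl L a := hnr.notMem
  have hfy : f y = x := by
    have hI : Mv L v a Z _ := Mv.idm a hZ (X := {y, x}) (Set.toFinite _)
    exact (hfZ _ y x hI (nr1.refl hy) ⟨y, Or.inl (Or.inr (Or.inl rfl)), rfl⟩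
      ⟨x, Or.inl (Or.inr (Or.inr rfl)), rfl⟩).symm
  have hfy' : x' = f y' := hfZ S y' x' hS hnr h1 h2
  by_cases hyy : y' = y
  · rw [hfy', hyy, hfy]
    exact RVl.refl hl _
  set u := y' - y with hu
  have hu0 : u ≠ 0 := sub_ne_zero.2 hyy
  have hyu : y + u = y' := by rw [hu]; ring
  set u0 := u / l with hu0d
  have hlu : l * u0 = u := mul_div_cancel₀ _ hl
  have hu00 : u0 ≠ 0 := div_ne_zero hu0 hl
  have hsm : sm L v a y u0 := by
    intro c hc
    have h4 := h3 c hc
    rw [← hu, ← hlu, map_mul] at h4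
    by_contra hcon
    rw [not_lt] at hcon
    exact absurd h4 (not_lt.2 (mul_le_mul_right hcon _))
  have hle : v u ≤ v u0 := by
    rw [← hlu, map_mul]
    exact mul_le_of_le_one_left' hl1
  have hinc : x' - x = inc f y u := by
    unfold inc
    rw [hyu, hfy, hfy']
  have hc := (hf.const hK hV h0 hnt hD hu00 hsm hle).v_eq
  rw [map_mul, map_mul] at hc
  have hvu0 : 0 < v u0 := (Valuation.pos_iff v).2 hu00
  -- v (inc u) = v l * v (inc u0)
  have hc' : v (inc f y u) = v l * v (inc f y u0) := by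
    have h5 : v (inc f y u) * v u0 = v l * v (inc f y u0) * v u0 := by
      rw [← hc, ← hlu, map_mul]
      rw [mul_comm (v l) (v (inc f y u0)), mul_assoc]
    exact mul_right_cancel₀ hvu0.ne' h5
  -- the increment at `u0` is small
  obtain ⟨T, hT, h6⟩ := M0 h0 a (Z := Z ∪ {x}) (hZ.union (Set.finite_singleton x))
    (sm_iff.1 hsm)
  obtain ⟨x'', hx'', hr⟩ := hT.rig x (Or.inr rfl)
  have h7 : x'' = f (y + u0) := hfZ T (y + u0) x'' (hT.monoZ Set.subset_union_left)
    (sm_iff.1 hsm) h6 hx''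
  have h8 : inc f y u0 = x'' - x := by
    unfold inc
    rw [hfy, h7]
  have hvl : 0 < v l := (Valuation.pos_iff v).2 hl
  rcases hr with ⟨h9, h10⟩ | h9
  · left
    refine ⟨h9, ?_⟩
    rw [h8, h10, h9, sub_self, map_zero, mul_zero] at hc'
    have h11 := (Valuation.zero_iff v).1 hc'
    rw [← hinc, h9, sub_zero] at h11
    exact h11
  · right
    rw [v_sub_comm x x', hinc, hc', h8, v_sub_comm x'' x]
    exact mul_lt_mul_of_pos_left h9 hvl

include hK hV h0 hD in
/-- level 1 from level 0 -/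
theorem TH1 : TH L v 1 := by
  classical
  intro ι _ a Z hZ x l y y' hl hl1 hn
  by_cases hnt : ∃ t : K, t ≠ 0 ∧ v t < 1
  · suffices h : ∃ S x', Mv L v a Z S ∧ (y, y') ∈ S ∧ (x 0, x') ∈ S ∧ RVl v l (x 0) x' by
      obtain ⟨S, x', h1, h2, h3, h4⟩ := h
      refine ⟨S, h1, h2, fun j => ?_⟩
      have : j = 0 := Subsingleton.elim _ _
      rw [this]
      exact ⟨x', h3, h4⟩
    set x0 := x 0 with hx0
    have hn' : nr L v l a y y' := hn
    have hnr := hn'.to1 hl1
    by_cases hx : x0 ∈ acl L (oc y a)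
    · obtain ⟨Z', hZ', h1⟩ := jac hK hV h0 hnt hD a hx
      obtain ⟨S, hS, h2⟩ := M0 h0 a (Z := Z ∪ (Z' ∪ {x0}))
        (hZ.union (hZ'.union (Set.finite_singleton _))) hnr
      obtain ⟨x', hx', _⟩ := hS.rig x0 (Or.inr (Or.inr rfl))
      refine ⟨S, x', hS.monoZ Set.subset_union_left, h2, hx', ?_⟩
      exact h1 S y' x' l hl hl1 (hS.monoZ (fun z hz => Or.inr (Or.inl hz))) h2 hx' hn
    · by_cases hA : ∀ c ∈ acl L (oc x0 a), v (y' - y) < v (y - c)
      · obtain ⟨S, hS, h2⟩ := M0 h0 (oc x0 a) hZ hA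
        exact ⟨S, x0, hS.base, h2, hS.fixx, RVl.refl hl _⟩
      · push Not at hA
        obtain ⟨c, hc, hcle⟩ := hA
        have hca : c ∉ acl L a := fun h => absurd (hnr c h) (not_lt.2 hcle)
        have hxc : x0 ∈ acl L (oc c a) := exch0 hK hV h0 hnt a hc hca
        obtain ⟨Z', hZ', h1⟩ := jac hK hV h0 hnt hD a hxc
        obtain ⟨S, hS, h2⟩ := M0 h0 a (Z := Z ∪ (Z' ∪ {x0, c, y - c}))
          (hZ.union (hZ'.union (Set.toFinite _))) hnr
        obtain ⟨x', hx', _⟩ := hS.rig x0 (Or.inr (Or.inr (by simp)))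
        obtain ⟨c', hc', _⟩ := hS.rig c (Or.inr (Or.inr (by simp)))
        have h3 := hS.rv_sub hV h2 hc' (Or.inr (Or.inr (by simp)))
        have h4 : v (c' - c) ≤ v (y' - y) := by
          have h5 : v (y' - c' - (y - c)) ≤ v (y' - y) := by
            rcases h3 with ⟨h6, h7⟩ | h6
            · rw [h6, h7, sub_self, map_zero]
              exact zero_le
            · rw [v_sub_comm]
              exact (h6.trans_le hcle).le
          have e : c' - c = (y' - y) - (y' - c' - (y - c)) := by ring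
          rw [e]
          exact v_sub_le le_rfl h5
        refine ⟨S, x', hS.monoZ Set.subset_union_left, h2, hx', ?_⟩
        refine h1 S c' x' l hl hl1 (hS.monoZ (fun z hz => Or.inr (Or.inl hz))) hc' hx' ?_
        intro c1 hc1
        have h5 := hn c1 hc1
        have h6 : v (y - c) < v (y - c1) := hcle.trans_lt (hnr c1 hc1)
        rw [v_dist_eq h6]
        exact h4.trans_lt h5
  · push Not at hnt
    have hle : ∀ t : K, t ≠ 0 → v t = 1 := fun t ht => by
      refine le_antisymm ?_ (hnt t ht)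
      have := hnt t⁻¹ (inv_ne_zero ht)
      rw [map_inv₀] at this
      exact (one_le_inv₀ ((Valuation.pos_iff v).2 ht)).1 this
    have hyy : y' = y := by
      by_contra hne
      have h2 := hn 0 (zero_mem_acl hV a)
      rw [hle _ (sub_ne_zero.2 hne), hle l hl, one_mul, sub_zero] at h2
      by_cases hy : y = 0
      · rw [hy, map_zero] at h2
        exact not_lt_zero h2
      · rw [hle y hy] at h2
        exact lt_irrefl _ h2
    refine ⟨_, Mv.idm a hZ (X := {y} ∪ Set.range x) ((Set.finite_singleton y).union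
      (Set.finite_range x)), ?_, fun j => ⟨x j, ?_, RVl.refl hl _⟩⟩
    · rw [hyy]
      exact ⟨y, Or.inl (Or.inr (Or.inl rfl)), rfl⟩
    · exact ⟨x j, Or.inl (Or.inr (Or.inr ⟨j, rfl⟩)), rfl⟩

end Pool.Agent.H55.HM
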