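import Pool.Agent.H55.HM.D

/-!
# From the definition of 0-h-minimality to types
-/

set_option autoImplicit false
set_option linter.unusedSectionVars false

namespace Pool.Agent.H55.HM

open Pool.Agent.R611.HM
open FirstOrder Language Structure Set

universe u w

variable {L : FirstOrder.Language.{u, u}} {K : Type u} [L.Structure K]

section

variable [Field K] {O : ValuationSubring K}

/-- 0-h-minimality in a saturated model implies its type-level form -/
theorem TH0_of (hK : Satur L K) {sy : ValSymbols L} (hv : IsValued sy O)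
    (hm : HMinAt O L 0) : TH L O.valuation 0 := by
  classical
  have hV := hv.vf
  intro ι _ a Z hZ x l y y' hl hl1 hn
  obtain ⟨n, zz, hzz⟩ := exists_enum hZ
  let T1 : Set ((Fin n ⊕ ((Unit ⊕ ι) ⊕ Fin n) → K) → Prop) :=
    {R | ∃ P : (Fin n ⊕ (Unit ⊕ ι) → K) → Prop, Df L P ∧
      P (Sum.elim zz (Sum.elim (fun _ => y) a)) ∧
      R = fun w => P (Sum.elim (fun i => w (Sum.inl i)) (fun i => w (Sum.inr (Sum.inl i))))}
  let R0 : (Fin n ⊕ ((Unit ⊕ ι) ⊕ Fin n) → K) → Prop := fun w =>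
    ∀ j : Fin n, RVeq O.valuation (w (Sum.inr (Sum.inr j))) (w (Sum.inl j))
  have hR0 : Df L R0 := Df.all_fin fun j => hV.rveq (dvar _) (dvar _)
  obtain ⟨u', hu'⟩ := hK (Fin n) ((Unit ⊕ ι) ⊕ Fin n)
    (Sum.elim (Sum.elim (fun _ => y') a) zz)
    (T1 ∪ {R0}) (by
      rintro R (⟨P, hP, -, rfl⟩ | hR)
      · refine (hP.relabel (β := Fin n ⊕ ((Unit ⊕ ι) ⊕ Fin n))
          (Sum.elim (fun i => Sum.inl i) (fun i => Sum.inr (Sum.inl i)))).congr fun w => ?_
        apply iff_of_eq
        congr 1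
        funext k
        rcases k with k | k <;> rfl
      · rw [Set.mem_singleton_iff] at hR
        rw [hR]
        exact hR0) (by
    intro Rs hRs hfin
    -- the conjunction of the finitely many conditions
    have hch : ∀ R : Rs, ∃ P : (Fin n ⊕ (Unit ⊕ ι) → K) → Prop, Df L P ∧
        P (Sum.elim zz (Sum.elim (fun _ => y) a)) ∧ (R.1 ∈ T1 → R.1 = fun w =>
          P (Sum.elim (fun i => w (Sum.inl i)) (fun i => w (Sum.inr (Sum.inl i))))) := by
      intro R
      by_cases hR : R.1 ∈ T1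
      · obtain ⟨P, hP, hPt, he⟩ := hR
        exact ⟨P, hP, hPt, fun _ => he⟩
      · exact ⟨fun _ => True, Df.const _, trivial, fun h => absurd h hR⟩
    choose P hP hPt hPe using hch
    have := hfin.to_subtype
    -- the definable set
    let Yp : (Option (Fin n ⊕ Fin 0) ⊕ ι → K) → Prop := fun q =>
      ∃ s : Fin n → K,
        (∀ R : Rs, P R (Sum.elim s (Sum.elim (fun _ => q (Sum.inl none))
          (fun i => q (Sum.inr i))))) ∧
        ∀ j : Fin n, RVeq O.valuation (q (Sum.inl (some (Sum.inl j)))) (s j)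
    have hYp : Df L Yp := by
      refine Df.exT (Q := fun s (q : Option (Fin n ⊕ Fin 0) ⊕ ι → K) =>
        (∀ R : Rs, P R (Sum.elim s (Sum.elim (fun _ => q (Sum.inl none))
          (fun i => q (Sum.inr i))))) ∧
        ∀ j : Fin n, RVeq O.valuation (q (Sum.inl (some (Sum.inl j)))) (s j)) ?_
      refine Df.and (Df.all_fin fun R => ?_) (Df.all_fin fun j => hV.rveq (dvar _) (dvar _))
      refine ((hP R).relabel (β := (Option (Fin n ⊕ Fin 0) ⊕ ι) ⊕ Fin n)
        (Sum.elim (fun i => Sum.inr i) (Sum.elim (fun _ => Sum.inl (Sum.inl none))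
          (fun i => Sum.inl (Sum.inr i))))).congr fun w => ?_
      apply iff_of_eq
      congr 1
      funext k
      rcases k with k | k | k <;> rfl
    let X : Set K := {x1 | Yp (Sum.elim (fun o => o.elim x1
      (Sum.elim zz (fun i : Fin 0 => i.elim0))) a)}
    have hyX : y ∈ X := ⟨zz, fun R => hPt R, fun j => RVeq.refl _⟩
    have hXdef : DefinableOver O L 1 (Set.range a) (∅ : Set (RV O 1)) X := by
      refine ⟨n, 0, fun j => rv O 1 (zz j), fun i => i.elim0, {w | Yp (Sum.elim w a)},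
        fun i => i.elim0, hYp.params a (fun i => ⟨i, rfl⟩), fun z w hz hw => ?_⟩
      have hz' : ∀ j, RVeq O.valuation (z j) (zz j) := fun j => (rv_one_iff _ _).1 (hz j)
      ext x1
      constructor
      · rintro ⟨s, h2, h4⟩
        exact ⟨s, h2, fun j => (hz' j).trans (h4 j)⟩
      · rintro ⟨s, h2, h4⟩
        exact ⟨s, h2, fun j => (hz' j).symm.trans (h4 j)⟩
    obtain ⟨C, hC, hCdef, hCp⟩ := hm 1 one_ne_zero le_rfl (Set.range a)
      ∅ Set.finite_empty (by rw [Set.encard_empty]) X hXdef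
    have hCacl := acl_of_definable hC hCdef
    have hy'X : y' ∈ X := by
      refine (hCp y y' fun c hc => ?_).1 hyX
      rw [rv_one_iff]
      right
      have e : y - c - (y' - c) = -(y' - y) := by ring
      rw [e, Valuation.map_neg]
      exact (hn c (hCacl hc)).trans_le (mul_le_of_le_one_left' hl1)
    obtain ⟨s, h2, h4⟩ := hy'X
    refine ⟨s, fun R hR => ?_⟩
    by_cases hRT : R ∈ T1
    · have e := hPe ⟨R, hR⟩ hRT
      change R _
      rw [show R = (⟨R, hR⟩ : Rs).1 from rfl, e]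
      exact h2 ⟨R, hR⟩
    · rcases hRs hR with h | h
      · exact absurd h hRT
      · rw [Set.mem_singleton_iff] at h
        rw [h]
        exact h4)
  have hRl := hu' R0 (Or.inr rfl)
  let S : Set (K × K) := insert (y, y') (Set.range (fun i => (a i, a i)) ∪
    Set.range (fun i => (zz i, u' i)))
  have hel : El L S := by
    intro γ _ t ht P hP
    have hc : ∀ i, ∃ j : Fin n ⊕ (Unit ⊕ ι), t i =
        Sum.elim (fun i => (zz i, u' i)) (Sum.elim (fun _ => (y, y')) (fun i => (a i, a i))) j := by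
      intro i
      rcases ht i with h' | ⟨j, hj⟩ | ⟨j, hj⟩
      · exact ⟨Sum.inr (Sum.inl ()), h'⟩
      · exact ⟨Sum.inr (Sum.inr j), hj.symm⟩
      · exact ⟨Sum.inl j, hj.symm⟩
    choose σ hσ using hc
    have base : ∀ P : (Fin n ⊕ (Unit ⊕ ι) → K) → Prop, Df L P →
        (P (Sum.elim zz (Sum.elim (fun _ => y) a)) ↔
          P (Sum.elim u' (Sum.elim (fun _ => y') a))) := by
      intro P hP
      have one : ∀ P : (Fin n ⊕ (Unit ⊕ ι) → K) → Prop, Df L P →
          P (Sum.elim zz (Sum.elim (fun _ => y) a)) →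
          P (Sum.elim u' (Sum.elim (fun _ => y') a)) := by
        intro P hP hPt
        exact hu' _ (Or.inl ⟨P, hP, hPt, rfl⟩)
      refine ⟨one P hP, fun h' => ?_⟩
      by_contra hc
      exact one _ hP.not hc h'
    have h4 := base _ (hP.relabel σ)
    have e1 : (fun i => Sum.elim zz (Sum.elim (fun _ => y) a) (σ i)) = fun i => (t i).1 := by
      funext i
      rw [hσ i]
      rcases σ i with k | k | k <;> rfl
    have e2 : (fun i => Sum.elim u' (Sum.elim (fun _ => y') a) (σ i)) = fun i => (t i).2 := by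
      funext i
      rw [hσ i]
      rcases σ i with k | k | k <;> rfl
    rw [e1, e2] at h4
    exact h4
  refine ⟨S, ⟨hel, ((Set.finite_range _).union (Set.finite_range _)).insert _, fun i =>
    Or.inr (Or.inl ⟨i, rfl⟩), fun z hz => ?_⟩, Or.inl rfl, fun j => j.elim0⟩
  rw [← hzz] at hz
  obtain ⟨j, rfl⟩ := hz
  exact ⟨u' j, Or.inr (Or.inr ⟨j, rfl⟩), hRl j⟩

end

/-- Every order isomorphism `b` between two closed intervals of the group of nonzero values, whose
graph is definable with parameters and which is locally a translation (multiplication by a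
constant) to the left of each point, is a translation on endpoints. -/
def LocTransl (L : FirstOrder.Language.{u, u}) {K : Type u} [L.Structure K] [Field K]
    (O : ValuationSubring K) : Prop :=
  ∀ (b : O.ValueGroup → O.ValueGroup) (γ₁ γ₀ : O.ValueGroup), γ₁ ≠ 0 → γ₁ ≤ γ₀ → b γ₁ ≠ 0 →
    (Set.univ : Set K).Definable L
      {w : Fin 2 → K | O.valuation (w 1) = b (O.valuation (w 0))} →
    StrictMonoOn b (Set.Icc γ₁ γ₀) →
    Set.SurjOn b (Set.Icc γ₁ γ₀) (Set.Icc (b γ₁) (b γ₀)) →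
    (∀ γ ∈ Set.Ioc γ₁ γ₀, ∃ γ' ∈ Set.Ico γ₁ γ, ∀ ε ∈ Set.Icc γ' γ, b ε / ε = b γ / γ) →
    b γ₁ / γ₁ = b γ₀ / γ₀

section

variable [Field K] {O : ValuationSubring K}

theorem MM_of {sy : ValSymbols L} (hv : IsValued sy O) (h : LocTransl L O) :
    MM L O.valuation := by
  classical
  have hV := hv.vf
  intro β _ F p u1 u0 hF hu1 hle hF1 hi hii hiii hiv
  set v := O.valuation with hvd
  have hv1 : v u1 ≠ 0 := (Valuation.ne_zero_iff v).2 hu1
  let b : O.ValueGroup → O.ValueGroup := fun γ =>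
    if h : ∃ u, v u = γ ∧ v u1 ≤ v u ∧ v u ≤ v u0 then v (F (oc h.choose p)) else 0
  have hb : ∀ u, v u1 ≤ v u → v u ≤ v u0 → b (v u) = v (F (oc u p)) := by
    intro u h1 h2
    have h3 : ∃ u', v u' = v u ∧ v u1 ≤ v u' ∧ v u' ≤ v u0 := ⟨u, rfl, h1, h2⟩
    simp only [b, dif_pos h3]
    exact hi _ _ h3.choose_spec.1 h3.choose_spec.2.1 h3.choose_spec.2.2
  have hb' : ∀ u, ¬ (v u1 ≤ v u ∧ v u ≤ v u0) → b (v u) = 0 := by
    intro u h1
    have h3 : ¬ ∃ u', v u' = v u ∧ v u1 ≤ v u' ∧ v u' ≤ v u0 := by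
      rintro ⟨u', h4, h5, h6⟩
      rw [h4] at h5 h6
      exact h1 ⟨h5, h6⟩
    simp only [b, dif_neg h3]
  have hne : ∀ u, v u1 ≤ v u → u ≠ 0 := by
    rintro u h1 rfl
    rw [map_zero] at h1
    exact hv1 (le_antisymm h1 zero_le)
  have hlift : ∀ γ : O.ValueGroup, ∃ u, v u = γ := fun γ => O.valuation_surjective γ
  have hdef : (Set.univ : Set K).Definable L {w : Fin 2 → K | v (w 1) = b (v (w 0))} := by
    let P : (Fin 2 ⊕ (Bool ⊕ β) → K) → Prop := fun w =>
      ((v (w (Sum.inr (Sum.inl true))) ≤ v (w (Sum.inl 0)) ∧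
          v (w (Sum.inl 0)) ≤ v (w (Sum.inr (Sum.inl false)))) ∧
        v (w (Sum.inl 1)) = v (F (oc (w (Sum.inl 0)) (fun i => w (Sum.inr (Sum.inr i)))))) ∨
      (¬ (v (w (Sum.inr (Sum.inl true))) ≤ v (w (Sum.inl 0)) ∧
          v (w (Sum.inl 0)) ≤ v (w (Sum.inr (Sum.inl false)))) ∧ w (Sum.inl 1) = 0)
    have hP : Df L P := by
      have h1 : Df L (fun w : Fin 2 ⊕ (Bool ⊕ β) → K =>
          v (w (Sum.inr (Sum.inl true))) ≤ v (w (Sum.inl 0)) ∧
          v (w (Sum.inl 0)) ≤ v (w (Sum.inr (Sum.inl false)))) :=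
        Df.and (hV.vle (dvar _) (dvar _)) (hV.vle (dvar _) (dvar _))
      exact (h1.and (hV.veq (dvar _) (DfF.ocg hF
        (g := fun w : Fin 2 ⊕ (Bool ⊕ β) → K => w (Sum.inl 0)) (dvar _)
        (fun i => Sum.inr (Sum.inr i))))).or (h1.not.and (Df.eq (dvar _) hV.fzero))
    have h2 := hP.params (Sum.elim (fun b => if b then u1 else u0) p) (A := Set.univ)
      (fun _ => Set.mem_univ _)
    convert h2 using 1
    ext w
    simp only [Set.mem_ofPred_eq, P, Sum.elim_inl, Sum.elim_inr, if_true, Bool.false_eq_true,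
      if_false]
    by_cases hc : v u1 ≤ v (w 0) ∧ v (w 0) ≤ v u0
    · rw [hb _ hc.1 hc.2]
      constructor
      · intro h3
        exact Or.inl ⟨hc, h3⟩
      · rintro (h3 | h3)
        · exact h3.2
        · exact absurd hc h3.1
    · rw [hb' _ hc, Valuation.zero_iff]
      constructor
      · intro h3
        exact Or.inr ⟨hc, h3⟩
      · rintro (h3 | h3)
        · exact absurd h3.1 hc
        · exact h3.2
  have key := h b (v u1) (v u0) hv1 hle
    (by rw [hb u1 le_rfl hle]; exact (Valuation.ne_zero_iff v).2 hF1) hdef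
    (by
      rintro γ ⟨h1, h2⟩ δ ⟨h3, h4⟩ hlt
      obtain ⟨x, rfl⟩ := hlift γ
      obtain ⟨y, rfl⟩ := hlift δ
      rw [hb x h1 h2, hb y h3 h4]
      exact hii x y h1 hlt h4)
    (by
      rintro s ⟨h1, h2⟩
      obtain ⟨s, rfl⟩ := hlift s
      rw [hb u1 le_rfl hle] at h1
      rw [hb u0 hle le_rfl] at h2
      obtain ⟨u, h3, h4, h5⟩ := hiii s h1 h2
      exact ⟨v u, ⟨h3, h4⟩, by rw [hb u h3 h4, h5]⟩)
    (by
      rintro γ ⟨h1, h2⟩
      obtain ⟨x, rfl⟩ := hlift γ
      obtain ⟨g, h3, h4, h5⟩ := hiv x h1 h2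
      refine ⟨v g, ⟨h3, h4⟩, ?_⟩
      rintro ε ⟨h6, h7⟩
      obtain ⟨y, rfl⟩ := hlift ε
      rw [hb y (h3.trans h6) (h7.trans h2), hb x h1.le h2]
      have h8 := h5 y h6 h7
      have hx0 : v x ≠ 0 := (Valuation.ne_zero_iff v).2 (hne x h1.le)
      have hy0 : v y ≠ 0 := (Valuation.ne_zero_iff v).2 (hne y (h3.trans h6))
      rw [div_eq_div_iff hy0 hx0]
      exact h8)
  rw [hb u1 le_rfl hle, hb u0 hle le_rfl] at key
  rw [div_eq_div_iff hv1 ((Valuation.ne_zero_iff v).2 (hne u0 hle))] at key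
  exact key

end

/-- The main theorem: level 0 implies all levels if locally translating definable order
isomorphisms between intervals of the value group are translations. -/
theorem main {sy : ValSymbols L} {T : L.Theory} (hT : IsValuedTheory sy T)
    (hLT : ∀ (K : Type u) [L.Structure K] [Field K] (O : ValuationSubring K), K ⊨ T →
      IsValued sy O → LocTransl L O)
    (h : HMin sy T 0) (s : ℕ∞) : HMin sy T s := by
  intro K _ _ O hKT hO
  obtain ⟨N, hNs, j, hN⟩ := exists_satur_extension (L := L) K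
  have hNT : N ⊨ T := (j.theory_model_iff T).1 hKT
  have : Nonempty N := ⟨j 0⟩
  obtain ⟨hNf, O', hO'⟩ := hT N hNT
  have h0 : TH L O'.valuation 0 := TH0_of hN hO' (h N O' hNT hO')
  have h1 : TH L O'.valuation 1 := TH1 hN hO'.vf h0 (MM_of hO' (hLT N O' hNT hO'))
  exact hminAt_of_TH j hO hO' hN (TH_all hN hO'.vf h1) s

end Pool.Agent.H55.HM
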