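import Pool.Agent.H55.HM.E

/-!
# Definably complete value groups
-/

set_option autoImplicit false
set_option linter.unusedSectionVars false

namespace Pool.Agent.H55.HM

open Pool.Agent.R611.HM
open FirstOrder Language Structure Set

universe u w

/-- The value group is definably complete: every nonempty set of values which is definable with
parameters and bounded below by a nonzero value has a greatest lower bound. -/
def DefComplete (L : FirstOrder.Language.{u, u}) {K : Type u} [L.Structure K] [Field K]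
    (O : ValuationSubring K) : Prop :=
  ∀ S : Set O.ValueGroup, S.Nonempty → (∃ γ, γ ≠ 0 ∧ γ ∈ lowerBounds S) →
    (Set.univ : Set K).Definable L {w : Fin 1 → K | O.valuation (w 0) ∈ S} → ∃ γ, IsGLB S γ

variable {L : FirstOrder.Language.{u, u}} {K : Type u} [L.Structure K]
variable [Field K] {O : ValuationSubring K}

/-- the sets used below are definable -/
theorem def_aux {sy : ValSymbols L} (hv : IsValued sy O) {b : O.ValueGroup → O.ValueGroup}
    (hb : (Set.univ : Set K).Definable L {w : Fin 2 → K | O.valuation (w 1) = b (O.valuation (w 0))})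
    (le : Bool) (γ₁ γ₀ : O.ValueGroup) :
    (Set.univ : Set K).Definable L {w : Fin 1 → K | O.valuation (w 0) ∈
      {γ | γ₁ ≤ γ ∧ γ ≤ γ₀ ∧ ∀ γ', γ ≤ γ' → γ' ≤ γ₀ →
        if le then b γ' * γ₀ ≤ b γ₀ * γ' else b γ₀ * γ' ≤ b γ' * γ₀}} := by
  classical
  have hV := hv.vf
  set v := O.valuation with hvd
  obtain ⟨g1, hg1⟩ := O.valuation_surjective γ₁
  obtain ⟨g0, hg0⟩ := O.valuation_surjective γ₀
  obtain ⟨s0, hs0⟩ := O.valuation_surjective (b γ₀)
  obtain ⟨n, a, φ, _, hφ⟩ := df_of_definable hb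
  have hφ' : ∀ x y, v y = b (v x) ↔ φ.Realize (Sum.elim a ![x, y]) := by
    intro x y
    rw [← hφ]
    simp
  have hR : Df L (fun w : Fin n ⊕ Fin 2 → K => φ.Realize w) := by
    rw [df_iff]
    exact ⟨φ, fun w => Iff.rfl⟩
  -- parameters: a, g1, g0, s0
  let P : (Fin 1 ⊕ (Fin n ⊕ Fin 3) → K) → Prop := fun w =>
    v (w (Sum.inr (Sum.inr 0))) ≤ v (w (Sum.inl 0)) ∧
    v (w (Sum.inl 0)) ≤ v (w (Sum.inr (Sum.inr 1))) ∧
    ∀ x : K, v (w (Sum.inl 0)) ≤ v x → v x ≤ v (w (Sum.inr (Sum.inr 1))) →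
      ∀ y : K, φ.Realize (Sum.elim (fun i => w (Sum.inr (Sum.inl i))) ![x, y]) →
        if le then v (y * w (Sum.inr (Sum.inr 1))) ≤ v (w (Sum.inr (Sum.inr 2)) * x)
        else v (w (Sum.inr (Sum.inr 2)) * x) ≤ v (y * w (Sum.inr (Sum.inr 1)))
  have hP : Df L P := by
    refine Df.and (hV.vle (dvar _) (dvar _)) (Df.and (hV.vle (dvar _) (dvar _)) ?_)
    refine Df.all1 (Q := fun x (w : Fin 1 ⊕ (Fin n ⊕ Fin 3) → K) =>
      v (w (Sum.inl 0)) ≤ v x → v x ≤ v (w (Sum.inr (Sum.inr 1))) →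
      ∀ y : K, φ.Realize (Sum.elim (fun i => w (Sum.inr (Sum.inl i))) ![x, y]) →
        if le then v (y * w (Sum.inr (Sum.inr 1))) ≤ v (w (Sum.inr (Sum.inr 2)) * x)
        else v (w (Sum.inr (Sum.inr 2)) * x) ≤ v (y * w (Sum.inr (Sum.inr 1)))) ?_
    refine Df.imp (hV.vle (dvar _) (dvar _)) (Df.imp (hV.vle (dvar _) (dvar _)) ?_)
    refine Df.all1 (Q := fun y (w : Option (Fin 1 ⊕ (Fin n ⊕ Fin 3)) → K) =>
      φ.Realize (Sum.elim (fun i => w (some (Sum.inr (Sum.inl i)))) ![w none, y]) →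
        if le then v (y * w (some (Sum.inr (Sum.inr 1)))) ≤
          v (w (some (Sum.inr (Sum.inr 2))) * w none)
        else v (w (some (Sum.inr (Sum.inr 2))) * w none) ≤
          v (y * w (some (Sum.inr (Sum.inr 1))))) ?_
    refine Df.imp ?_ ?_
    · refine (hR.relabel (β := Option (Option (Fin 1 ⊕ (Fin n ⊕ Fin 3))))
        (Sum.elim (fun i => some (some (Sum.inr (Sum.inl i)))) ![some none, none])).congr
        fun w => ?_
      apply iff_of_eq
      refine congrArg (Formula.Realize _) ?_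
      funext i
      rcases i with i | i
      · rfl
      · fin_cases i <;> rfl
    · cases le
      · simp only [Bool.false_eq_true, if_false]
        exact hV.vle (hV.fmul (dvar _) (dvar _)) (hV.fmul (dvar _) (dvar _))
      · simp only [if_true]
        exact hV.vle (hV.fmul (dvar _) (dvar _)) (hV.fmul (dvar _) (dvar _))
  have h2 := hP.params (Sum.elim a ![g1, g0, s0]) (A := Set.univ) (fun _ => Set.mem_univ _)
  convert h2 using 1
  ext w
  simp only [Set.mem_ofPred_eq, P, Sum.elim_inl, Sum.elim_inr, Matrix.cons_val_zero,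
    Matrix.cons_val_one, Matrix.cons_val]
  rw [hg1, hg0]
  refine and_congr Iff.rfl (and_congr Iff.rfl ?_)
  constructor
  · intro h x h3 h4 y h5
    have h6 := h (v x) h3 h4
    have h7 := (hφ' x y).2 h5
    rw [map_mul, map_mul, hg0, hs0, h7]
    exact h6
  · intro h γ' h3 h4
    obtain ⟨x, rfl⟩ := O.valuation_surjective γ'
    obtain ⟨y, hy⟩ := O.valuation_surjective (b (v x))
    have h6 := h x h3 h4 y ((hφ' x y).1 hy)
    rw [map_mul, map_mul, hg0, hs0, hy] at h6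
    exact h6

/-- definably complete value groups have no locally translating maps other than translations -/
theorem DefComplete.locTransl {sy : ValSymbols L} (hv : IsValued sy O) (h : DefComplete L O) :
    LocTransl L O := by
  classical
  intro b γ₁ γ₀ h1 hle hb1 hdef hmono hsurj hloc
  have hpos : ∀ {γ}, γ₁ ≤ γ → 0 < γ := fun h => (zero_lt_iff.2 h1).trans_le h
  have hbpos : ∀ {γ}, γ₁ ≤ γ → γ ≤ γ₀ → 0 < b γ := by
    intro γ h2 h3
    rcases h2.lt_or_eq with h4 | h4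
    · exact zero_le.trans_lt (hmono ⟨le_rfl, hle⟩ ⟨h2, h3⟩ h4)
    · rw [← h4]; exact zero_lt_iff.2 hb1
  have hγ₀ : 0 < γ₀ := hpos hle
  have hbγ₀ : 0 < b γ₀ := hbpos hle le_rfl
  -- the local condition without division
  have hloc' : ∀ γ, γ₁ < γ → γ ≤ γ₀ → ∃ γ', γ₁ ≤ γ' ∧ γ' < γ ∧ ∀ ε, γ' ≤ ε → ε ≤ γ →
      b ε * γ = b γ * ε := by
    intro γ h2 h3
    obtain ⟨γ', ⟨h4, h5⟩, h6⟩ := hloc γ ⟨h2, h3⟩
    refine ⟨γ', h4, h5, fun ε h7 h8 => ?_⟩
    have := h6 ε ⟨h7, h8⟩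
    rwa [div_eq_div_iff (hpos (h4.trans h7)).ne' (hpos h2.le).ne'] at this
  -- cancellation helper
  have hcancel : ∀ {p q r : O.ValueGroup}, 0 < r → p * r ≤ q * r → p ≤ q :=
    fun hr h => le_of_mul_le_mul_right h hr
  rw [div_eq_div_iff h1 hγ₀.ne']
  refine le_antisymm ?_ ?_
  · by_contra hcon
    rw [not_le] at hcon
    set Y : Set O.ValueGroup := {γ | γ₁ ≤ γ ∧ γ ≤ γ₀ ∧ ∀ γ', γ ≤ γ' → γ' ≤ γ₀ →
        b γ' * γ₀ ≤ b γ₀ * γ'} with hY
    have hdY : (Set.univ : Set K).Definable L {w : Fin 1 → K | O.valuation (w 0) ∈ Y} :=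
      def_aux hv hdef true γ₁ γ₀
    have hY0 : γ₀ ∈ Y := ⟨hle, le_rfl, fun γ' h2 h3 => by
      rw [le_antisymm h3 h2]⟩
    obtain ⟨m, hm⟩ := h Y ⟨γ₀, hY0⟩ ⟨γ₁, h1, fun γ hγ => hγ.1⟩ hdY
    have h1m : γ₁ ≤ m := hm.2 fun γ hγ => hγ.1
    have hm0 : m ≤ γ₀ := hm.1 hY0
    have hbad : ∀ γ', γ' ≤ γ₀ → b γ₀ * γ' < b γ' * γ₀ → ∀ γ ∈ Y, γ' < γ := by
      intro γ' h2 h3 γ hγ
      by_contra hc
      rw [not_lt] at hc
      exact absurd (hγ.2.2 γ' hc h2) (not_le.2 h3)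
    by_cases hmY : m ∈ Y
    · have hlt : γ₁ < m := hbad γ₁ hle hcon m hmY
      obtain ⟨γ', h2, h3, h4⟩ := hloc' m hlt hm0
      have h5 : γ' ∈ Y := by
        refine ⟨h2, h3.le.trans hm0, fun ε h6 h7 => ?_⟩
        rcases le_total m ε with h8 | h8
        · exact hmY.2.2 ε h8 h7
        · have h9 := h4 ε h6 h8
          have h10 := hmY.2.2 m le_rfl hm0
          refine hcancel (hpos h1m) ?_
          calc b ε * γ₀ * m = (b ε * m) * γ₀ := by rw [mul_right_comm]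
            _ = (b m * γ₀) * ε := by rw [h9, mul_right_comm]
            _ ≤ (b γ₀ * m) * ε := mul_le_mul_left h10 _
            _ = b γ₀ * ε * m := by rw [mul_right_comm]
      exact absurd (hm.1 h5) (not_le.2 h3)
    · have : ∃ γ', m ≤ γ' ∧ γ' ≤ γ₀ ∧ b γ₀ * γ' < b γ' * γ₀ := by
        by_contra hc
        push Not at hc
        exact hmY ⟨h1m, hm0, hc⟩
      obtain ⟨γ', h2, h3, h4⟩ := this
      have h5 : γ' ≤ m := hm.2 fun γ hγ => (hbad γ' h3 h4 γ hγ).le
      have h6 : γ' = m := le_antisymm h5 h2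
      rw [h6] at h4
      -- a better lower bound
      have h7 : b m * γ₀ / b γ₀ ≤ m := by
        refine hm.2 fun γ hγ => ?_
        rw [div_le_iff₀ hbγ₀]
        have h8 : m < γ := by
          rw [← h6]
          exact hbad γ' h3 (by rw [h6]; exact h4) γ hγ
        have h9 := hmono ⟨h1m, hm0⟩ ⟨hγ.1, hγ.2.1⟩ h8
        have h10 := hγ.2.2 γ le_rfl hγ.2.1
        rw [mul_comm γ]
        exact ((mul_lt_mul_of_pos_right h9 hγ₀).trans_le h10).le
      rw [div_le_iff₀ hbγ₀, mul_comm m] at h7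
      exact absurd h4 (not_lt.2 h7)
  · by_contra hcon
    rw [not_le] at hcon
    set Y : Set O.ValueGroup := {γ | γ₁ ≤ γ ∧ γ ≤ γ₀ ∧ ∀ γ', γ ≤ γ' → γ' ≤ γ₀ →
        b γ₀ * γ' ≤ b γ' * γ₀} with hY
    have hdY : (Set.univ : Set K).Definable L {w : Fin 1 → K | O.valuation (w 0) ∈ Y} :=
      def_aux hv hdef false γ₁ γ₀
    have hY0 : γ₀ ∈ Y := ⟨hle, le_rfl, fun γ' h2 h3 => by
      rw [le_antisymm h3 h2]⟩
    obtain ⟨m, hm⟩ := h Y ⟨γ₀, hY0⟩ ⟨γ₁, h1, fun γ hγ => hγ.1⟩ hdY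
    have h1m : γ₁ ≤ m := hm.2 fun γ hγ => hγ.1
    have hm0 : m ≤ γ₀ := hm.1 hY0
    have hbad : ∀ γ', γ' ≤ γ₀ → b γ' * γ₀ < b γ₀ * γ' → ∀ γ ∈ Y, γ' < γ := by
      intro γ' h2 h3 γ hγ
      by_contra hc
      rw [not_lt] at hc
      exact absurd (hγ.2.2 γ' hc h2) (not_le.2 h3)
    by_cases hmY : m ∈ Y
    · have hlt : γ₁ < m := hbad γ₁ hle hcon m hmY
      obtain ⟨γ', h2, h3, h4⟩ := hloc' m hlt hm0
      have h5 : γ' ∈ Y := by
        refine ⟨h2, h3.le.trans hm0, fun ε h6 h7 => ?_⟩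
        rcases le_total m ε with h8 | h8
        · exact hmY.2.2 ε h8 h7
        · have h9 := h4 ε h6 h8
          have h10 := hmY.2.2 m le_rfl hm0
          refine hcancel (hpos h1m) ?_
          calc b γ₀ * ε * m = (b γ₀ * m) * ε := by rw [mul_right_comm]
            _ ≤ (b m * γ₀) * ε := mul_le_mul_left h10 _
            _ = (b m * ε) * γ₀ := by rw [mul_right_comm]
            _ = b ε * γ₀ * m := by rw [← h9, mul_right_comm]
      exact absurd (hm.1 h5) (not_le.2 h3)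
    · have : ∃ γ', m ≤ γ' ∧ γ' ≤ γ₀ ∧ b γ' * γ₀ < b γ₀ * γ' := by
        by_contra hc
        push Not at hc
        exact hmY ⟨h1m, hm0, hc⟩
      obtain ⟨γ', h2, h3, h4⟩ := this
      have h5 : γ' ≤ m := hm.2 fun γ hγ => (hbad γ' h3 h4 γ hγ).le
      have h6 : γ' = m := le_antisymm h5 h2
      rw [h6] at h4
      -- a value missed by `b`
      have h7 : b m < b γ₀ * m / γ₀ := by
        rw [lt_div_iff₀ hγ₀]
        exact h4
      have h8 : b γ₀ * m / γ₀ ≤ b γ₀ := by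
        rw [div_le_iff₀ hγ₀]
        exact mul_le_mul_right hm0 _
      have h9 : b γ₁ ≤ b m := hmono.monotoneOn ⟨le_rfl, hle⟩ ⟨h1m, hm0⟩ h1m
      obtain ⟨ε, ⟨h10, h11⟩, h12⟩ := hsurj ⟨h9.trans h7.le, h8⟩
      have h13 : m < ε := by
        by_contra hc
        rw [not_lt] at hc
        have := hmono.monotoneOn ⟨h10, h11⟩ ⟨h1m, hm0⟩ hc
        rw [h12] at this
        exact absurd h7 (not_lt.2 this)
      obtain ⟨γ, hγ, h14⟩ : ∃ γ ∈ Y, γ < ε := by
        by_contra hc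
        push Not at hc
        exact absurd (hm.2 hc) (not_le.2 h13)
      have h15 := hmono ⟨hγ.1, hγ.2.1⟩ ⟨h10, h11⟩ h14
      rw [h12, lt_div_iff₀ hγ₀] at h15
      have h16 := hγ.2.2 γ le_rfl hγ.2.1
      have h17 := (h16.trans_lt h15)
      have h18 : m ≤ γ := hm.1 hγ
      exact absurd h17 (not_lt.2 (mul_le_mul_right h18 _))

end Pool.Agent.H55.HM
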