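import Pool.Agent.H55.HM.F

/-!
# Complete theories with a model whose value group is conditionally complete
-/

set_option autoImplicit false
set_option linter.unusedSectionVars false

namespace Pool.Agent.H55.HM

open Pool.Agent.R611.HM
open FirstOrder Language Structure Set

universe u w

variable {L : FirstOrder.Language.{u, u}}

/-- uniform definability, in all structures at once -/
def UD {α : Type} (P : ∀ (M : Type u) [L.Structure M], (α → M) → Prop) : Prop :=
  ∃ φ : L.Formula α, ∀ (M : Type u) [L.Structure M] (w : α → M), φ.Realize w ↔ P M w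

namespace UD

variable {α β : Type}

theorem imp {P Q : ∀ (M : Type u) [L.Structure M], (α → M) → Prop} (hP : UD P) (hQ : UD Q) :
    UD (fun M [L.Structure M] w => P M w → Q M w) := by
  obtain ⟨φ, hφ⟩ := hP
  obtain ⟨ψ, hψ⟩ := hQ
  refine ⟨φ.imp ψ, fun M _ w => ?_⟩
  rw [Formula.realize_imp, hφ, hψ]

theorem and {P Q : ∀ (M : Type u) [L.Structure M], (α → M) → Prop} (hP : UD P) (hQ : UD Q) :
    UD (fun M [L.Structure M] w => P M w ∧ Q M w) := by
  obtain ⟨φ, hφ⟩ := hP
  obtain ⟨ψ, hψ⟩ := hQ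
  refine ⟨φ ⊓ ψ, fun M _ w => ?_⟩
  rw [Formula.realize_inf, hφ, hψ]

theorem not {P : ∀ (M : Type u) [L.Structure M], (α → M) → Prop} (hP : UD P) :
    UD (fun M [L.Structure M] w => ¬ P M w) := by
  obtain ⟨φ, hφ⟩ := hP
  refine ⟨φ.not, fun M _ w => ?_⟩
  rw [Formula.realize_not, hφ]

theorem all1 [Finite α] {Q : ∀ (M : Type u) [L.Structure M], M → (α → M) → Prop}
    (h : UD (fun M [L.Structure M] (w : Option α → M) => Q M (w none) (fun i => w (some i)))) :
    UD (fun M [L.Structure M] w => ∀ y, Q M y w) := by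
  obtain ⟨φ, hφ⟩ := h
  refine ⟨Formula.iAlls Unit (φ.relabel (fun o : Option α =>
    (o.elim (Sum.inr ()) Sum.inl : α ⊕ Unit))), fun M _ w => ?_⟩
  rw [Formula.realize_iAlls]
  constructor
  · intro h y
    have h1 := h (fun _ => y)
    have h2 : (φ.relabel (fun o : Option α =>
      (o.elim (Sum.inr ()) Sum.inl : α ⊕ Unit))).Realize (Sum.elim w (fun _ => y)) := h1
    rw [Formula.realize_relabel, hφ] at h2
    exact h2
  · intro h y
    have h2 : (φ.relabel (fun o : Option α =>
      (o.elim (Sum.inr ()) Sum.inl : α ⊕ Unit))).Realize (Sum.elim w y) := by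
      rw [Formula.realize_relabel, hφ]
      exact h (y ())
    exact h2

theorem ex1 [Finite α] {Q : ∀ (M : Type u) [L.Structure M], M → (α → M) → Prop}
    (h : UD (fun M [L.Structure M] (w : Option α → M) => Q M (w none) (fun i => w (some i)))) :
    UD (fun M [L.Structure M] w => ∃ y, Q M y w) := by
  obtain ⟨φ, hφ⟩ := h
  refine ⟨Formula.iExs Unit (φ.relabel (fun o : Option α =>
    (o.elim (Sum.inr ()) Sum.inl : α ⊕ Unit))), fun M _ w => ?_⟩
  rw [Formula.realize_iExs]
  constructor
  · rintro ⟨y, h⟩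
    rw [Formula.realize_relabel, hφ] at h
    exact ⟨y (), h⟩
  · rintro ⟨y, h⟩
    refine ⟨fun _ => y, ?_⟩
    rw [Formula.realize_relabel, hφ]
    exact h

end UD

/-- divisibility by the valuation ring, in terms of the symbols -/
def leS (sy : ValSymbols L) (M : Type u) [L.Structure M] (x y : M) : Prop :=
  ∃ t : M, RelMap sy.ring ![t] ∧ x = funMap sy.mul ![t, y]

theorem leS_iff {sy : ValSymbols L} {K : Type u} [L.Structure K] [Field K]
    {O : ValuationSubring K} (hv : IsValued sy O) (x y : K) :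
    leS sy K x y ↔ O.valuation x ≤ O.valuation y := by
  unfold leS
  simp only [hv.ring, hv.mul]
  constructor
  · rintro ⟨t, ht, he⟩
    rw [he, map_mul]
    exact mul_le_of_le_one_left' ((O.valuation_le_one_iff t).2 ht)
  · intro hle
    by_cases hy : y = 0
    · rw [hy, map_zero, le_zero_iff, Valuation.zero_iff] at hle
      exact ⟨1, O.one_mem, by rw [hle, hy, mul_zero]⟩
    · refine ⟨x / y, ?_, by rw [div_mul_cancel₀ _ hy]⟩
      rw [← O.valuation_le_one_iff, map_div₀]
      exact div_le_one_of_le₀ hle zero_le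

theorem UD.le (sy : ValSymbols L) {α : Type} [Finite α] (i j : α) :
    UD (fun M [L.Structure M] (w : α → M) => leS sy M (w i) (w j)) := by
  unfold leS
  refine UD.ex1 (Q := fun M _ t (w : α → M) => RelMap sy.ring ![t] ∧
    w i = funMap sy.mul ![t, w j]) (UD.and ?_ ?_)
  · refine ⟨sy.ring.formula ![Term.var none], fun M _ w => ?_⟩
    rw [Formula.realize_rel]
    apply iff_of_eq
    congr 1
    funext k
    fin_cases k
    rfl
  · refine ⟨Term.equal (Term.var (some i))
      (Term.func sy.mul ![Term.var none, Term.var (some j)]), fun M _ w => ?_⟩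
    rw [Formula.realize_equal, Term.realize_var, Term.realize_func]
    have : (fun k => ((![Term.var none, Term.var (some j)] :
        Fin 2 → L.Term (Option α)) k).realize w) = ![w none, w (some j)] := by
      funext k
      fin_cases k <;> rfl
    rw [this]

theorem UD.nz (sy : ValSymbols L) {α : Type} (i : α) :
    UD (fun M [L.Structure M] (w : α → M) => ¬ funMap sy.add ![w i, w i] = w i) := by
  refine UD.not ⟨Term.equal (Term.func sy.add ![Term.var i, Term.var i]) (Term.var i),
    fun M _ w => ?_⟩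
  rw [Formula.realize_equal, Term.realize_var, Term.realize_func]
  have : (fun k => ((![Term.var i, Term.var i] :
      Fin 2 → L.Term α) k).realize w) = ![w i, w i] := by
    funext k
    fin_cases k <;> rfl
  rw [this]

/-- greatest lower bounds of the values of a definable family, in terms of the symbols -/
def GLBS (sy : ValSymbols L) {n : ℕ} (φ : L.Formula (Fin n ⊕ Fin 1)) (M : Type u) [L.Structure M]
    (a : Fin n → M) : Prop :=
  (∃ x : M, φ.Realize (Sum.elim a (fun _ => x))) →
  (∃ g : M, ¬ funMap sy.add ![g, g] = g ∧ ∀ x : M, φ.Realize (Sum.elim a (fun _ => x)) →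
    leS sy M g x) →
  ∃ m : M, (∀ x : M, φ.Realize (Sum.elim a (fun _ => x)) → leS sy M m x) ∧
    ∀ m' : M, (∀ x : M, φ.Realize (Sum.elim a (fun _ => x)) → leS sy M m' x) → leS sy M m' m

theorem UD.fm {n : ℕ} (φ : L.Formula (Fin n ⊕ Fin 1)) {α : Type} (σ : Fin n → α) (i : α) :
    UD (fun M [L.Structure M] (w : α → M) =>
      φ.Realize (Sum.elim (fun k => w (σ k)) (fun _ => w i))) := by
  refine ⟨φ.relabel (Sum.elim σ (fun _ => i)), fun M _ w => ?_⟩
  rw [Formula.realize_relabel]
  apply iff_of_eq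
  congr 1
  funext k
  rcases k with k | k <;> rfl

theorem UD.glbs (sy : ValSymbols L) {n : ℕ} (φ : L.Formula (Fin n ⊕ Fin 1)) :
    UD (fun M [L.Structure M] (a : Fin n → M) => GLBS sy φ M a) := by
  unfold GLBS
  refine UD.imp ?_ (UD.imp ?_ ?_)
  · exact UD.ex1 (Q := fun M _ x (a : Fin n → M) => φ.Realize (Sum.elim a (fun _ => x)))
      (UD.fm φ _ _)
  · refine UD.ex1 (Q := fun M _ g (a : Fin n → M) => ¬ funMap sy.add ![g, g] = g ∧
      ∀ x : M, φ.Realize (Sum.elim a (fun _ => x)) → leS sy M g x) ?_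
    refine UD.and (UD.nz sy none) ?_
    exact UD.all1 (Q := fun M _ x (w : Option (Fin n) → M) =>
      φ.Realize (Sum.elim (fun k => w (some k)) (fun _ => x)) → leS sy M (w none) x)
      (UD.imp (UD.fm φ _ _) (UD.le sy (some none) none))
  · refine UD.ex1 (Q := fun M _ m (a : Fin n → M) =>
      (∀ x : M, φ.Realize (Sum.elim a (fun _ => x)) → leS sy M m x) ∧
      ∀ m' : M, (∀ x : M, φ.Realize (Sum.elim a (fun _ => x)) → leS sy M m' x) →
        leS sy M m' m) ?_
    refine UD.and ?_ ?_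
    · exact UD.all1 (Q := fun M _ x (w : Option (Fin n) → M) =>
        φ.Realize (Sum.elim (fun k => w (some k)) (fun _ => x)) → leS sy M (w none) x)
        (UD.imp (UD.fm φ _ _) (UD.le sy (some none) none))
    · refine UD.all1 (Q := fun M _ m' (w : Option (Fin n) → M) =>
        (∀ x : M, φ.Realize (Sum.elim (fun k => w (some k)) (fun _ => x)) → leS sy M m' x) →
          leS sy M m' (w none)) ?_
      refine UD.imp ?_ (UD.le sy none (some none))
      exact UD.all1 (Q := fun M _ x (w : Option (Option (Fin n)) → M) =>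
        φ.Realize (Sum.elim (fun k => w (some (some k))) (fun _ => x)) → leS sy M (w none) x)
        (UD.imp (UD.fm φ _ _) (UD.le sy (some none) none))

theorem nz_iff {sy : ValSymbols L} {K : Type u} [L.Structure K] [Field K]
    {O : ValuationSubring K} (hv : IsValued sy O) (x : K) :
    (¬ funMap sy.add ![x, x] = x) ↔ x ≠ 0 := by
  rw [hv.add, add_eq_left]

/-- the sentence -/
theorem glb_sentence (sy : ValSymbols L) {n : ℕ} (φ : L.Formula (Fin n ⊕ Fin 1)) :
    ∃ σ : L.Sentence, ∀ (M : Type u) [L.Structure M], M ⊨ σ ↔ ∀ a : Fin n → M, GLBS sy φ M a := by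
  obtain ⟨ψ, hψ⟩ := UD.glbs sy φ
  refine ⟨Formula.iAlls (Fin n) (ψ.relabel (Sum.inr : Fin n → Empty ⊕ Fin n)), fun M _ => ?_⟩
  unfold Sentence.Realize
  rw [Formula.realize_iAlls]
  constructor
  · intro h a
    have h1 := h a
    have h2 : (ψ.relabel (Sum.inr : Fin n → Empty ⊕ Fin n)).Realize
      (Sum.elim (default : Empty → M) a) := h1
    rw [Formula.realize_relabel, hψ] at h2
    exact h2
  · intro h a
    have h2 : (ψ.relabel (Sum.inr : Fin n → Empty ⊕ Fin n)).Realize
      (Sum.elim (default : Empty → M) a) := by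
      rw [Formula.realize_relabel, hψ]
      exact h a
    exact h2

/-- The value group of one model of a complete theory is conditionally complete: then all models
have a definably complete value group. -/
theorem defComplete_of {sy : ValSymbols L} {T : L.Theory} (hc : T.IsComplete)
    {K₀ : Type u} [L.Structure K₀] [Field K₀] {O₀ : ValuationSubring K₀} (h0 : K₀ ⊨ T)
    (hv0 : IsValued sy O₀)
    (hcc : ∀ S : Set O₀.ValueGroup, S.Nonempty → (∃ γ, γ ≠ 0 ∧ γ ∈ lowerBounds S) →
      ∃ γ, IsGLB S γ)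
    {K : Type u} [L.Structure K] [Field K] {O : ValuationSubring K} (hK : K ⊨ T)
    (hv : IsValued sy O) : DefComplete L O := by
  intro S hS hb hdef
  obtain ⟨n, a, φ, _, hφ⟩ := df_of_definable hdef
  obtain ⟨σ, hσ⟩ := glb_sentence sy φ
  have hσ0 : K₀ ⊨ σ := by
    rw [hσ]
    intro a h1 h2
    obtain ⟨x, hx⟩ := h1
    obtain ⟨g, hg, hgb⟩ := h2
    rw [nz_iff hv0] at hg
    obtain ⟨γ, hγ⟩ := hcc {γ | ∃ x, φ.Realize (Sum.elim a (fun _ => x)) ∧ O₀.valuation x = γ}
      ⟨_, x, hx, rfl⟩ ⟨O₀.valuation g, (Valuation.ne_zero_iff _).2 hg, by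
        rintro _ ⟨y, hy, rfl⟩
        exact (leS_iff hv0 _ _).1 (hgb y hy)⟩
    obtain ⟨m, rfl⟩ := O₀.valuation_surjective γ
    refine ⟨m, fun y hy => (leS_iff hv0 _ _).2 (hγ.1 ⟨y, hy, rfl⟩), fun m' hm' => ?_⟩
    rw [leS_iff hv0]
    refine hγ.2 ?_
    rintro _ ⟨y, hy, rfl⟩
    exact (leS_iff hv0 _ _).1 (hm' y hy)
  have hσK : K ⊨ σ := by
    rw [hc.realize_sentence_iff, ← hc.realize_sentence_iff σ K₀]
    exact hσ0
  rw [hσ] at hσK
  have key := hσK a
  have hX : ∀ x : K, φ.Realize (Sum.elim a (fun _ => x)) ↔ O.valuation x ∈ S := by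
    intro x
    rw [← hφ]
    rfl
  obtain ⟨s, hs⟩ := hS
  obtain ⟨x, rfl⟩ := O.valuation_surjective s
  obtain ⟨γ, hγ0, hγ⟩ := hb
  obtain ⟨g, rfl⟩ := O.valuation_surjective γ
  obtain ⟨m, hm1, hm2⟩ := key ⟨x, (hX x).2 hs⟩ ⟨g, (nz_iff hv g).2
    ((Valuation.ne_zero_iff _).1 hγ0), fun y hy => (leS_iff hv _ _).2 (hγ ((hX y).1 hy))⟩
  refine ⟨O.valuation m, ?_, ?_⟩
  · intro s hs
    obtain ⟨y, rfl⟩ := O.valuation_surjective s
    exact (leS_iff hv _ _).1 (hm1 y ((hX y).2 hs))
  · intro s hs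
    obtain ⟨y, rfl⟩ := O.valuation_surjective s
    exact (leS_iff hv _ _).1 (hm2 y fun z hz => (leS_iff hv _ _).2 (hs ((hX z).1 hz)))

end Pool.Agent.H55.HM
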